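import Mathlib

/-!
# Coprime automorphisms of finite abelian `p`-groups of rank 2 (project LE, MP_baa4d7_al): basic lemmas
-/

set_option autoImplicit false

namespace Pool.Agent.LE.Rank2

variable {D : Type} [CommGroup D]

theorem mem_of_pow_mem {p k : ℕ} (hp : p.Prime) (hD : IsPGroup p D) (hk : ¬ p ∣ k) (A : Subgroup D) (a : D)
    (h : a ^ k ∈ A) : a ∈ A := by
  obtain ⟨j, hj⟩ := hD a
  have hc : k.Coprime (orderOf a) := by
    have h1 : orderOf a ∣ p ^ j := orderOf_dvd_of_pow_eq_one hj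
    refine Nat.Coprime.coprime_dvd_right h1 ?_
    exact Nat.Coprime.pow_right j ((Nat.Prime.coprime_iff_not_dvd hp).2 hk).symm
  obtain ⟨m, hm⟩ := exists_pow_eq_self_of_coprime hc
  rw [← hm]
  exact A.pow_mem h m

theorem cab (X u Z a Y : D) : X * (u * (Z * a))⁻¹ = X * ((a * u) * Y)⁻¹ * (Y * Z⁻¹) := by
  apply (Additive.ofMul (α := D)).injective
  simp only [ofMul_mul, ofMul_inv]
  abel

theorem chain_aux (t : MulAut D) (B : Subgroup D) (hB : ∀ b ∈ B, t b ∈ B) (u a : D) (e2 : t u = a * u)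
    (h : t a * a⁻¹ ∈ B) (j : ℕ) : (t ^ j) u * (u * a ^ j)⁻¹ ∈ B := by
  induction j with
  | zero => simp
  | succ j ih =>
    have h1 : t ((t ^ j) u * (u * a ^ j)⁻¹) ∈ B := hB _ ih
    have h2 : (t a * a⁻¹) ^ j ∈ B := B.pow_mem h j
    have h3 : (t ^ (j + 1)) u * (u * a ^ (j + 1))⁻¹ =
        t ((t ^ j) u * (u * a ^ j)⁻¹) * (t a * a⁻¹) ^ j := by
      have e1 : (t ^ (j + 1)) u = t ((t ^ j) u) := by
        rw [pow_succ', MulAut.mul_apply]
      have e3 : (t a * a⁻¹) ^ j = (t a) ^ j * (a ^ j)⁻¹ := by rw [mul_pow, inv_pow]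
      rw [e1, map_mul, map_inv, map_mul, map_pow, e2, e3, pow_succ]
      exact cab ((t ((t ^ j) u))) u (a ^ j) a ((t a) ^ j)
    rw [h3]
    exact B.mul_mem h1 h2

theorem chain {p k : ℕ} (hp : p.Prime) (hD : IsPGroup p D) (hk : ¬ p ∣ k) (t : MulAut D) (ht : t ^ k = 1)
    (B : Subgroup D) (hB : ∀ b ∈ B, t b ∈ B) (u : D) (h : t (t u * u⁻¹) * (t u * u⁻¹)⁻¹ ∈ B) :
    t u * u⁻¹ ∈ B := by
  have h1 := chain_aux t B hB u (t u * u⁻¹) (by simp) h k
  rw [ht] at h1
  have h2 : (1 : MulAut D) u * (u * (t u * u⁻¹) ^ k)⁻¹ = ((t u * u⁻¹) ^ k)⁻¹ := by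
    rw [MulAut.one_apply, mul_inv_rev, mul_comm, mul_assoc, inv_mul_cancel, mul_one]
  rw [h2] at h1
  exact mem_of_pow_mem hp hD hk B _ ((Subgroup.inv_mem_iff B).1 h1)

/-- relative form: an automorphism which fixes the elements of order `p` of an invariant subgroup fixes the subgroup -/
theorem fix_rel {p k : ℕ} (hp : p.Prime) (hD : IsPGroup p D) (hk : ¬ p ∣ k) (t : MulAut D) (ht : t ^ k = 1)
    (X : Subgroup D) (hX : ∀ u ∈ X, t u ∈ X) (h : ∀ u ∈ X, u ^ p = 1 → t u = u) : ∀ u ∈ X, t u = u := by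
  have key : ∀ j : ℕ, ∀ u ∈ X, u ^ p ^ j = 1 → t u = u := by
    intro j
    induction j with
    | zero => intro u _ hu; simp at hu; rw [hu, map_one]
    | succ j ih =>
      intro u huX hu
      have h1 : (u ^ p) ^ p ^ j = 1 := by rw [← pow_mul, ← pow_succ']; exact hu
      have h2 : t (u ^ p) = u ^ p := ih _ (X.pow_mem huX p) h1
      have h3 : (t u * u⁻¹) ^ p = 1 := by
        rw [mul_pow, inv_pow, ← map_pow, h2, mul_inv_cancel]
      have h4 : t u * u⁻¹ ∈ X := X.mul_mem (hX u huX) (X.inv_mem huX)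
      have h5 : t (t u * u⁻¹) = t u * u⁻¹ := h _ h4 h3
      have h6 : t u * u⁻¹ ∈ (⊥ : Subgroup D) := by
        apply chain hp hD hk t ht ⊥ (by intro b hb; rw [Subgroup.mem_bot] at hb ⊢; rw [hb, map_one])
        rw [h5, mul_inv_cancel]
        exact Subgroup.one_mem _
      rw [Subgroup.mem_bot] at h6
      exact mul_inv_eq_one.1 h6
  intro u hu
  obtain ⟨j, hj⟩ := hD u
  exact key j u hu hj

theorem eq_one_of_fix {p k : ℕ} (hp : p.Prime) (hD : IsPGroup p D) (hk : ¬ p ∣ k) (t : MulAut D) (ht : t ^ k = 1)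
    (h : ∀ u : D, u ^ p = 1 → t u = u) : t = 1 := by
  ext u
  rw [MulAut.one_apply]
  exact fix_rel hp hD hk t ht ⊤ (fun u _ => Subgroup.mem_top _) (fun u _ hu => h u hu) u (Subgroup.mem_top u)

/-- an automorphism which is trivial modulo `p`-th powers is trivial -/
theorem eq_one_of_frattini [Finite D] {p k : ℕ} (hp : p.Prime) (hD : IsPGroup p D) (hk : ¬ p ∣ k) (t : MulAut D) (ht : t ^ k = 1)
    (h : ∀ u : D, ∃ v : D, t u = u * v ^ p) : t = 1 := by
  have key : ∀ j : ℕ, ∀ u : D, ∃ v : D, t u * u⁻¹ = v ^ p ^ j := by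
    intro j
    induction j with
    | zero => intro u; exact ⟨t u * u⁻¹, by simp⟩
    | succ j ih =>
      intro u
      have h1 : t u * u⁻¹ ∈ (powMonoidHom (p ^ (j + 1)) : D →* D).range := by
        apply chain hp hD hk t ht
        · rintro b ⟨w, rfl⟩
          exact ⟨t w, by simp⟩
        · obtain ⟨v, hv⟩ := ih u
          obtain ⟨w, hw⟩ := h v
          refine ⟨w, ?_⟩
          rw [hv, map_pow, hw, mul_pow, powMonoidHom_apply, ← pow_mul, ← pow_succ']
          rw [mul_comm, ← mul_assoc, inv_mul_cancel, one_mul]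
      obtain ⟨v, hv⟩ := h1
      exact ⟨v, hv.symm⟩
  ext u
  rw [MulAut.one_apply]
  haveI : Fact p.Prime := ⟨hp⟩
  obtain ⟨e, he⟩ := IsPGroup.iff_card.1 hD
  obtain ⟨v, hv⟩ := key e u
  have h1 : v ^ p ^ e = 1 := by rw [← he]; exact pow_card_eq_one'
  rw [h1] at hv
  exact mul_inv_eq_one.1 hv

end Pool.Agent.LE.Rank2
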