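import Mathlib
import Pool.Agent.helper67.LE.R2Base

/-!
# Coprime automorphisms of finite abelian `p`-groups of rank 2 (project LE, MP_baa4d7_al): fixed points
-/

set_option autoImplicit false

namespace Pool.Agent.LE.Rank2

variable {D : Type} [CommGroup D]

/-- the fixed points of `t` -/
def Fx (t : MulAut D) : Subgroup D where
  carrier := {u | t u = u}
  one_mem' := map_one t
  mul_mem' := by
    intro a b ha hb
    simp only [Set.mem_setOf_eq] at ha hb ⊢
    rw [map_mul, ha, hb]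
  inv_mem' := by
    intro a ha
    simp only [Set.mem_setOf_eq] at ha ⊢
    rw [map_inv, ha]

theorem mem_Fx (t : MulAut D) (u : D) : u ∈ Fx t ↔ t u = u := Iff.rfl

theorem pow_card_I {I : Subgroup (MulAut D)} {t : MulAut D} (ht : t ∈ I) : t ^ Nat.card I = 1 := by
  have h : (⟨t, ht⟩ : I) ^ Nat.card I = 1 := pow_card_eq_one'
  exact congrArg (fun x : I => (x : MulAut D)) h

/-- the elements with `u ^ p = 1` -/
def Om (p : ℕ) (D : Type) [CommGroup D] : Subgroup D := (powMonoidHom p : D →* D).ker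

theorem mem_Om {p : ℕ} (u : D) : u ∈ Om p D ↔ u ^ p = 1 := by
  unfold Om
  rw [MonoidHom.mem_ker, powMonoidHom_apply]

theorem mem_zp {p : ℕ} (hp : p.Prime) (hD : IsPGroup p D) {w x : D} (hw : w ^ p = 1) (hx : x ∈ Subgroup.zpowers w)
    (hx1 : x ≠ 1) : w ∈ Subgroup.zpowers x := by
  obtain ⟨n, hn⟩ := Subgroup.mem_zpowers_iff.1 hx
  have h1 : ¬ (p : ℤ) ∣ n := by
    rintro ⟨m, rfl⟩
    apply hx1
    rw [← hn, zpow_mul, zpow_natCast, hw, one_zpow]
  have h2 : ¬ p ∣ n.natAbs := by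
    intro h
    exact h1 (Int.natCast_dvd.2 h)
  apply mem_of_pow_mem hp hD h2
  have h3 : w ^ n ∈ Subgroup.zpowers x := by rw [hn]; exact Subgroup.mem_zpowers x
  rcases Int.natAbs_eq n with h | h
  · rw [h, zpow_natCast] at h3; exact h3
  · rw [h, zpow_neg, zpow_natCast] at h3
    exact (Subgroup.inv_mem_iff _).1 h3

theorem card_zp {p : ℕ} (hp : p.Prime) {w : D} (hw : w ^ p = 1) (hw1 : w ≠ 1) :
    Nat.card (Subgroup.zpowers w) = p := by
  rw [Nat.card_zpowers]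
  exact orderOf_eq_prime hw hw1 (hp := ⟨hp⟩)

theorem gen2 [Finite D] {p : ℕ} (hp : p.Prime) (hr : Nat.card (Om p D) = p ^ 2) {w y : D} (hw : w ^ p = 1)
    (hw1 : w ≠ 1) (hy : y ^ p = 1) (hyw : y ∉ Subgroup.zpowers w) :
    ∀ u : D, u ^ p = 1 → ∃ a ∈ Subgroup.zpowers w, ∃ b ∈ Subgroup.zpowers y, a * b = u := by
  have hle : Subgroup.zpowers w ⊔ Subgroup.zpowers y ≤ Om p D := by
    apply sup_le
    · rw [Subgroup.zpowers_le]; exact (mem_Om w).2 hw
    · rw [Subgroup.zpowers_le]; exact (mem_Om y).2 hy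
  have hlt : Subgroup.zpowers w < Subgroup.zpowers w ⊔ Subgroup.zpowers y := by
    apply lt_of_le_of_ne le_sup_left
    intro h
    apply hyw
    rw [h]
    exact (le_sup_right : Subgroup.zpowers y ≤ _) (Subgroup.mem_zpowers y)
  have hcard : Nat.card (Subgroup.zpowers w ⊔ Subgroup.zpowers y : Subgroup D) = p ^ 2 := by
    have h1 : Nat.card (Subgroup.zpowers w ⊔ Subgroup.zpowers y : Subgroup D) ∣ p ^ 2 := by
      rw [← hr]; exact Subgroup.card_dvd_of_le hle
    obtain ⟨k, hk, hk2⟩ := (Nat.dvd_prime_pow hp).1 h1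
    have h2 : p < Nat.card (Subgroup.zpowers w ⊔ Subgroup.zpowers y : Subgroup D) := by
      have := Set.ncard_lt_ncard (show (Subgroup.zpowers w : Set D) ⊂ (Subgroup.zpowers w ⊔ Subgroup.zpowers y : Subgroup D) from hlt)
        (Set.toFinite _)
      rw [← Nat.card_coe_set_eq, ← Nat.card_coe_set_eq] at this
      have h3 := card_zp hp hw hw1
      simp only [SetLike.coe_sort_coe] at this
      rw [h3] at this
      exact this
    rw [hk2] at h2 ⊢
    have h3 : 1 < k := by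
      by_contra hcon
      have : k ≤ 1 := by omega
      have := Nat.pow_le_pow_right hp.pos this
      rw [pow_one] at this
      omega
    have : k = 2 := by omega
    rw [this]
  have heq : Subgroup.zpowers w ⊔ Subgroup.zpowers y = Om p D := by
    apply Subgroup.eq_of_le_of_card_ge hle
    rw [hcard, hr]
  intro u hu
  have h1 : u ∈ Subgroup.zpowers w ⊔ Subgroup.zpowers y := by rw [heq]; exact (mem_Om u).2 hu
  exact Subgroup.mem_sup.1 h1

theorem ex_out [Finite D] {p : ℕ} (hp : p.Prime) (hr : Nat.card (Om p D) = p ^ 2) {w : D} (hw : w ^ p = 1)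
    (hw1 : w ≠ 1) : ∃ y : D, y ^ p = 1 ∧ y ∉ Subgroup.zpowers w := by
  by_contra hcon
  push Not at hcon
  have hle : Om p D ≤ Subgroup.zpowers w := fun u hu => hcon u ((mem_Om u).1 hu)
  have h1 := Subgroup.card_le_of_le hle
  rw [hr, card_zp hp hw hw1] at h1
  have := hp.one_lt
  nlinarith

/-- the stabiliser of a line is abelian -/
theorem abl [Finite D] {p : ℕ} (hp : p.Prime) (hD : IsPGroup p D) {I : Subgroup (MulAut D)} (hI : ¬ p ∣ Nat.card I)
    (hr : Nat.card (Om p D) = p ^ 2) {w : D} (hw : w ^ p = 1) (hw1 : w ≠ 1) {t t' : MulAut D} (ht : t ∈ I) (ht' : t' ∈ I)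
    (hL : t w ∈ Subgroup.zpowers w) (hL' : t' w ∈ Subgroup.zpowers w) : t * t' = t' * t := by
  set L := Subgroup.zpowers w with hLdef
  have hLt : ∀ x ∈ L, t x ∈ L := by
    intro x hx
    obtain ⟨n, rfl⟩ := Subgroup.mem_zpowers_iff.1 hx
    rw [map_zpow]; exact L.zpow_mem hL n
  have hLt' : ∀ x ∈ L, t' x ∈ L := by
    intro x hx
    obtain ⟨n, rfl⟩ := Subgroup.mem_zpowers_iff.1 hx
    rw [map_zpow]; exact L.zpow_mem hL' n
  have hcommL : ∀ x ∈ L, t (t' x) = t' (t x) := by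
    intro x hx
    obtain ⟨n, rfl⟩ := Subgroup.mem_zpowers_iff.1 hx
    obtain ⟨a, ha⟩ := Subgroup.mem_zpowers_iff.1 hL
    obtain ⟨b, hb⟩ := Subgroup.mem_zpowers_iff.1 hL'
    simp only [map_zpow]
    rw [← ha, ← hb, map_zpow, map_zpow, ← ha, ← hb]
    simp only [← zpow_mul]
    congr 1
    ring
  obtain ⟨y, hy, hyw⟩ := ex_out hp hr hw hw1
  have hgen := gen2 hp hr hw hw1 hy hyw
  have hty : (t y) ^ p = 1 := by rw [← map_pow, hy, map_one]
  have hty' : (t' y) ^ p = 1 := by rw [← map_pow, hy, map_one]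
  obtain ⟨a, ha, b, hb, hab⟩ := hgen _ hty
  obtain ⟨a', ha', b', hb', hab'⟩ := hgen _ hty'
  obtain ⟨m, rfl⟩ := Subgroup.mem_zpowers_iff.1 hb
  obtain ⟨m', rfl⟩ := Subgroup.mem_zpowers_iff.1 hb'
  -- modulo L
  have hy2 : t (t' y) * (t' (t y))⁻¹ ∈ L := by
    rw [← hab, ← hab', map_mul, map_mul, map_zpow, map_zpow, ← hab, ← hab', mul_zpow, mul_zpow,
      ← zpow_mul, ← zpow_mul, mul_comm m m']
    have h1 : t a' * (a ^ m' * y ^ (m' * m)) * (t' a * (a' ^ m * y ^ (m' * m)))⁻¹ =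
        t a' * a ^ m' * ((t' a)⁻¹ * (a' ^ m)⁻¹) := by
      apply (Additive.ofMul (α := D)).injective
      simp only [ofMul_mul, ofMul_inv]
      abel
    rw [h1]
    exact L.mul_mem (L.mul_mem (hLt _ ha') (L.zpow_mem ha m')) (L.mul_mem (L.inv_mem (hLt' _ ha)) (L.inv_mem (L.zpow_mem ha' m)))
  have hmod : ∀ u : D, u ^ p = 1 → t (t' u) * (t' (t u))⁻¹ ∈ L := by
    intro u hu
    obtain ⟨c, hc, d, hd, rfl⟩ := hgen u hu
    obtain ⟨n, rfl⟩ := Subgroup.mem_zpowers_iff.1 hd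
    have h1 : t (t' (c * y ^ n)) * (t' (t (c * y ^ n)))⁻¹ =
        (t (t' c) * (t' (t c))⁻¹) * (t (t' y) * (t' (t y))⁻¹) ^ n := by
      simp only [map_mul, map_zpow, mul_zpow, inv_zpow]
      apply (Additive.ofMul (α := D)).injective
      simp only [ofMul_mul, ofMul_inv]
      abel
    rw [h1, hcommL c hc, mul_inv_cancel, one_mul]
    exact L.zpow_mem hy2 n
  set q : MulAut D := t' * t with hq
  set s : MulAut D := q⁻¹ * (t * t') with hs
  have hqI : q ∈ I := I.mul_mem ht' ht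
  have hsI : s ∈ I := I.mul_mem (I.inv_mem hqI) (I.mul_mem ht ht')
  have hqL : ∀ x ∈ L, q x ∈ L := by
    intro x hx
    rw [hq, MulAut.mul_apply]
    exact hLt' _ (hLt _ hx)
  have hqLn : ∀ n : ℕ, ∀ x ∈ L, (q ^ n) x ∈ L := by
    intro n
    induction n with
    | zero => intro x hx; simpa using hx
    | succ n ih => intro x hx; rw [pow_succ', MulAut.mul_apply]; exact hqL _ (ih x hx)
  have hqinv : ∀ x ∈ L, q⁻¹ x ∈ L := by
    intro x hx
    have h1 : q⁻¹ = q ^ (Nat.card I - 1) := by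
      have h2 := pow_card_I hqI
      have h3 : 0 < Nat.card I := by
        rcases Nat.eq_zero_or_pos (Nat.card I) with h | h
        · exfalso; apply hI; rw [h]; exact dvd_zero p
        · exact h
      rw [inv_eq_iff_mul_eq_one, ← pow_succ', Nat.sub_add_cancel h3, h2]
    rw [h1]
    exact hqLn _ x hx
  have hsu : ∀ u : D, u ^ p = 1 → s u * u⁻¹ ∈ L := by
    intro u hu
    have h1 : s u * u⁻¹ = q⁻¹ (t (t' u) * (t' (t u))⁻¹) := by
      rw [map_mul, map_inv]
      congr 1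
      rw [show t' (t u) = q u by rw [hq, MulAut.mul_apply], ← MulAut.mul_apply, inv_mul_cancel, MulAut.one_apply]
    rw [h1]
    exact hqinv _ (hmod u hu)
  have hsL : ∀ x ∈ L, s x = x := by
    intro x hx
    rw [hs, MulAut.mul_apply, MulAut.mul_apply, hcommL x hx]
    rw [show t' (t x) = q x by rw [hq, MulAut.mul_apply], ← MulAut.mul_apply, inv_mul_cancel, MulAut.one_apply]
  have hs1 : s = 1 := by
    apply eq_one_of_fix hp hD hI s (pow_card_I hsI)
    intro u hu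
    have h1 : s u * u⁻¹ ∈ (⊥ : Subgroup D) := by
      apply chain hp hD hI s (pow_card_I hsI) ⊥ (by intro b hb; rw [Subgroup.mem_bot] at hb ⊢; rw [hb, map_one])
      rw [hsL _ (hsu u hu), mul_inv_cancel]
      exact Subgroup.one_mem _
    rw [Subgroup.mem_bot] at h1
    exact mul_inv_eq_one.1 h1
  rw [hs, inv_mul_eq_one] at hs1
  exact hs1.symm

/-- the fixed points of order `p` -/
theorem socle [Finite D] {p : ℕ} (hp : p.Prime) (hD : IsPGroup p D) {I : Subgroup (MulAut D)} (hI : ¬ p ∣ Nat.card I)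
    (hr : Nat.card (Om p D) = p ^ 2) {w : D} (hw : w ^ p = 1) (hw1 : w ≠ 1) {t : MulAut D} (ht : t ∈ I) (ht1 : t ≠ 1)
    (htw : t w = w) (u : D) (hu : u ^ p = 1) (htu : t u = u) : u ∈ Subgroup.zpowers w := by
  by_contra hcon
  apply ht1
  apply eq_one_of_fix hp hD hI t (pow_card_I ht)
  intro x hx
  obtain ⟨a, ha, b, hb, rfl⟩ := gen2 hp hr hw hw1 hu hcon x hx
  obtain ⟨n, rfl⟩ := Subgroup.mem_zpowers_iff.1 ha
  obtain ⟨m, rfl⟩ := Subgroup.mem_zpowers_iff.1 hb
  rw [map_mul, map_zpow, map_zpow, htw, htu]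

theorem same_le [Finite D] {p : ℕ} (hp : p.Prime) (hD : IsPGroup p D) {I : Subgroup (MulAut D)} (hI : ¬ p ∣ Nat.card I)
    (hr : Nat.card (Om p D) = p ^ 2) {w : D} (hw : w ^ p = 1) (hw1 : w ≠ 1) {t t' : MulAut D} (ht : t ∈ I) (ht' : t' ∈ I)
    (ht1 : t ≠ 1) (htw : t w = w) (htw' : t' w = w) : Fx t ≤ Fx t' := by
  have hc : t * t' = t' * t := abl hp hD hI hr hw hw1 ht ht' (by rw [htw]; exact Subgroup.mem_zpowers w)
    (by rw [htw']; exact Subgroup.mem_zpowers w)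
  apply fix_rel hp hD hI t' (pow_card_I ht') (Fx t)
  · intro u hu
    rw [mem_Fx] at hu ⊢
    rw [← MulAut.mul_apply, hc, MulAut.mul_apply, hu]
  · intro u hu hup
    have := socle hp hD hI hr hw hw1 ht ht1 htw u hup hu
    obtain ⟨n, rfl⟩ := Subgroup.mem_zpowers_iff.1 this
    rw [map_zpow, htw']

theorem same [Finite D] {p : ℕ} (hp : p.Prime) (hD : IsPGroup p D) {I : Subgroup (MulAut D)} (hI : ¬ p ∣ Nat.card I)
    (hr : Nat.card (Om p D) = p ^ 2) {w : D} (hw : w ^ p = 1) (hw1 : w ≠ 1) {t t' : MulAut D} (ht : t ∈ I) (ht' : t' ∈ I)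
    (ht1 : t ≠ 1) (ht1' : t' ≠ 1) (htw : t w = w) (htw' : t' w = w) : Fx t = Fx t' :=
  le_antisymm (same_le hp hD hI hr hw hw1 ht ht' ht1 htw htw') (same_le hp hD hI hr hw hw1 ht' ht ht1' htw' htw)

/-- every non-trivial element has a power of order `p` -/
theorem ex_pow {p : ℕ} (hp : p.Prime) (hD : IsPGroup p D) {u : D} (hu : u ≠ 1) : ∃ n : ℕ, u ^ n ≠ 1 ∧ (u ^ n) ^ p = 1 := by
  classical
  obtain ⟨j, hj⟩ := hD u
  have hex : ∃ j : ℕ, u ^ p ^ j = 1 := ⟨j, hj⟩
  set k := Nat.find hex with hk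
  have h1 : u ^ p ^ k = 1 := Nat.find_spec hex
  have h2 : k ≠ 0 := by
    intro h
    rw [h, pow_zero, pow_one] at h1
    exact hu h1
  obtain ⟨k', hk'⟩ := Nat.exists_eq_succ_of_ne_zero h2
  refine ⟨p ^ k', ?_, ?_⟩
  · exact Nat.find_min hex (by rw [← hk, hk']; exact Nat.lt_succ_self k')
  · rw [← pow_mul, ← pow_succ, ← Nat.succ_eq_add_one, ← hk']
    exact h1

/-- the index of the fixed points -/
theorem card_Fx [Finite D] {p : ℕ} (hp : p.Prime) (hD : IsPGroup p D) {I : Subgroup (MulAut D)} (hI : ¬ p ∣ Nat.card I)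
    {m : ℕ} (hm : 1 ≤ m) (hom : ∀ u : D, u ^ p = 1 → ∃ v : D, v ^ p ^ (m - 1) = u) {t : MulAut D} (ht : t ∈ I)
    (ht1 : t ≠ 1) : p ^ m * Nat.card (Fx t) ≤ Nat.card D := by
  set f : D →* D := (t : D ≃* D).toMonoidHom * (MonoidHom.id D)⁻¹ with hf
  have hfa : ∀ u, f u = t u * u⁻¹ := by intro u; simp [hf]
  have hker : f.ker = Fx t := by
    ext u
    rw [MonoidHom.mem_ker, hfa, mem_Fx, mul_inv_eq_one]
  have h1 : Nat.card D = Nat.card f.ker * Nat.card f.range := by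
    rw [Nat.card_congr (QuotientGroup.quotientKerEquivRange f).symm.toEquiv]
    rw [mul_comm]
    exact Subgroup.card_eq_card_quotient_mul_card_subgroup f.ker
  have h2 : ∃ x : D, x ^ p = 1 ∧ t x ≠ x := by
    by_contra hcon
    push Not at hcon
    exact ht1 (eq_one_of_fix hp hD hI t (pow_card_I ht) hcon)
  obtain ⟨x, hx, htx⟩ := h2
  obtain ⟨v, hv⟩ := hom x hx
  have h3 : (f v) ^ p ^ (m - 1) ≠ 1 := by
    rw [← map_pow, hv, hfa]
    intro h
    exact htx (mul_inv_eq_one.1 h)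
  have h4 : p ^ m ≤ Nat.card f.range := by
    have h5 : orderOf (f v) ∣ Nat.card f.range := by
      rw [← Nat.card_zpowers]
      apply Subgroup.card_dvd_of_le
      rw [Subgroup.zpowers_le]
      exact ⟨v, rfl⟩
    obtain ⟨j, hj⟩ := hD (f v)
    obtain ⟨k, hk, hk2⟩ := (Nat.dvd_prime_pow hp).1 (orderOf_dvd_of_pow_eq_one hj)
    have h6 : m ≤ k := by
      by_contra hcon
      apply h3
      apply orderOf_dvd_iff_pow_eq_one.1
      rw [hk2]
      exact pow_dvd_pow p (by omega)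
    calc p ^ m ≤ p ^ k := Nat.pow_le_pow_right hp.pos h6
      _ = orderOf (f v) := hk2.symm
      _ ≤ Nat.card f.range := Nat.le_of_dvd Nat.card_pos h5
  rw [h1, hker, mul_comm]
  exact Nat.mul_le_mul_left _ h4

end Pool.Agent.LE.Rank2
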