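import Mathlib
import Pool.Agent.helper67.LE.R2Line

/-!
# Coprime automorphisms of finite abelian `p`-groups of rank 2 with an invariant line (project LE, MP_baa4d7_al)
-/

set_option autoImplicit false

namespace Pool.Agent.LE.Rank2

variable {D : Type} [CommGroup D]

theorem line_stable {w : D} {t : MulAut D} (hL : t w ∈ Subgroup.zpowers w) : ∀ x ∈ Subgroup.zpowers w, t x ∈ Subgroup.zpowers w := by
  intro x hx
  obtain ⟨n, rfl⟩ := Subgroup.mem_zpowers_iff.1 hx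
  rw [map_zpow]
  exact Subgroup.zpow_mem _ hL n

theorem line_stable_pow {w : D} {t : MulAut D} (hL : t w ∈ Subgroup.zpowers w) (n : ℕ) :
    ∀ x ∈ Subgroup.zpowers w, (t ^ n) x ∈ Subgroup.zpowers w := by
  induction n with
  | zero => intro x hx; simpa using hx
  | succ n ih => intro x hx; rw [pow_succ', MulAut.mul_apply]; exact line_stable hL _ (ih x hx)

theorem inv_eq_pow {p : ℕ} {I : Subgroup (MulAut D)} (hI : ¬ p ∣ Nat.card I) {t : MulAut D} (ht : t ∈ I) :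
    t⁻¹ = t ^ (Nat.card I - 1) := by
  have h3 : 0 < Nat.card I := by
    rcases Nat.eq_zero_or_pos (Nat.card I) with h | h
    · exfalso; apply hI; rw [h]; exact dvd_zero p
    · exact h
  rw [inv_eq_iff_mul_eq_one, ← pow_succ', Nat.sub_add_cancel h3, pow_card_I ht]

theorem line_stable_inv {p : ℕ} {I : Subgroup (MulAut D)} (hI : ¬ p ∣ Nat.card I) {w : D} {t : MulAut D} (ht : t ∈ I)
    (hL : t w ∈ Subgroup.zpowers w) : ∀ x ∈ Subgroup.zpowers w, t⁻¹ x ∈ Subgroup.zpowers w := by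
  rw [inv_eq_pow hI ht]
  exact line_stable_pow hL _

/-- an element of `I` which is trivial on a line and on the quotient is trivial -/
theorem triv_of_line [Finite D] {p : ℕ} (hp : p.Prime) (hD : IsPGroup p D) {I : Subgroup (MulAut D)} (hI : ¬ p ∣ Nat.card I)
    (hr : Nat.card (Om p D) = p ^ 2) {w y : D} (hw : w ^ p = 1) (hw1 : w ≠ 1) (hy : y ^ p = 1)
    (hyw : y ∉ Subgroup.zpowers w) {s : MulAut D} (hs : s ∈ I) (hsw : s w = w) (hsy : s y * y⁻¹ ∈ Subgroup.zpowers w) :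
    s = 1 := by
  have hL : ∀ x ∈ Subgroup.zpowers w, s x = x := by
    intro x hx
    obtain ⟨n, rfl⟩ := Subgroup.mem_zpowers_iff.1 hx
    rw [map_zpow, hsw]
  apply eq_one_of_fix hp hD hI s (pow_card_I hs)
  intro u hu
  obtain ⟨a, ha, b, hb, rfl⟩ := gen2 hp hr hw hw1 hy hyw u hu
  obtain ⟨m, rfl⟩ := Subgroup.mem_zpowers_iff.1 hb
  have h0 : s (a * y ^ m) * (a * y ^ m)⁻¹ = (s y * y⁻¹) ^ m := by
    rw [map_mul, hL a ha, map_zpow, mul_zpow, inv_zpow]
    apply (Additive.ofMul (α := D)).injective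
    simp only [ofMul_mul, ofMul_inv]
    abel
  have h1 : s (a * y ^ m) * (a * y ^ m)⁻¹ ∈ (⊥ : Subgroup D) := by
    apply chain hp hD hI s (pow_card_I hs) ⊥ (by intro b hb; rw [Subgroup.mem_bot] at hb ⊢; rw [hb, map_one])
    rw [h0, hL _ (Subgroup.zpow_mem _ hsy m), mul_inv_cancel]
    exact Subgroup.one_mem _
  rw [Subgroup.mem_bot] at h1
  exact mul_inv_eq_one.1 h1

theorem ex_exp [Finite D] {p : ℕ} (hp : p.Prime) {y x : D} (hy : y ^ p = 1) (hy1 : y ≠ 1)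
    (hx : x ∈ Subgroup.zpowers y) : ∃ n : ℕ, n < p ∧ y ^ n = x := by
  have ho : orderOf y = p := orderOf_eq_prime hy hy1 (hp := ⟨hp⟩)
  rw [← mem_powers_iff_mem_zpowers] at hx
  obtain ⟨n, hn⟩ := hx
  refine ⟨n % p, Nat.mod_lt _ hp.pos, ?_⟩
  rw [← hn]
  simp only
  rw [← ho, pow_mod_orderOf]

/-- the order of `I` if a line is invariant -/
theorem card_I_le [Finite D] {p : ℕ} (hp : p.Prime) (hD : IsPGroup p D) {I : Subgroup (MulAut D)} (hI : ¬ p ∣ Nat.card I)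
    (hr : Nat.card (Om p D) = p ^ 2) {w : D} (hw : w ^ p = 1) (hw1 : w ≠ 1)
    (hL : ∀ t ∈ I, t w ∈ Subgroup.zpowers w) : Nat.card I ≤ (p - 1) ^ 2 := by
  classical
  obtain ⟨y, hy, hyw⟩ := ex_out hp hr hw hw1
  have hy1 : y ≠ 1 := by rintro rfl; exact hyw (Subgroup.one_mem _)
  have hgen := gen2 hp hr hw hw1 hy hyw
  have h1 : ∀ t : I, ∃ ab : ℕ × ℕ, (ab.1 < p ∧ ab.1 ≠ 0 ∧ w ^ ab.1 = (t : MulAut D) w) ∧
      (ab.2 < p ∧ ab.2 ≠ 0 ∧ (t : MulAut D) y * (y ^ ab.2)⁻¹ ∈ Subgroup.zpowers w) := by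
    rintro ⟨t, ht⟩
    obtain ⟨a, ha, haw⟩ := ex_exp hp hw hw1 (hL t ht)
    have hty : (t y) ^ p = 1 := by rw [← map_pow, hy, map_one]
    obtain ⟨c, hc, d, hd, hcd⟩ := hgen _ hty
    obtain ⟨b, hb, hbd⟩ := ex_exp hp hy hy1 hd
    refine ⟨(a, b), ⟨ha, ?_, haw⟩, ⟨hb, ?_, ?_⟩⟩
    · rintro h
      simp only at h
      rw [h, pow_zero] at haw
      exact hw1 (t.injective (by rw [← haw, map_one]))
    · rintro h
      simp only at h
      rw [h, pow_zero] at hbd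
      rw [← hbd, mul_one] at hcd
      apply hyw
      have h2 := line_stable_inv hI ht (hL t ht) c hc
      rw [hcd, ← MulAut.mul_apply, inv_mul_cancel, MulAut.one_apply] at h2
      exact h2
    · simp only
      rw [hbd, ← hcd, mul_assoc, mul_inv_cancel, mul_one]
      exact hc
  choose f hf using h1
  have hinj : Function.Injective f := by
    intro t t' htt
    have h2 := hf t
    have h3 := hf t'
    rw [← htt] at h3
    obtain ⟨⟨_, _, h4⟩, ⟨_, _, h5⟩⟩ := h2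
    obtain ⟨⟨_, _, h6⟩, ⟨_, _, h7⟩⟩ := h3
    have hs : ((t : MulAut D))⁻¹ * (t' : MulAut D) = 1 := by
      apply triv_of_line hp hD hI hr hw hw1 hy hyw (I.mul_mem (I.inv_mem t.2) t'.2)
      · rw [MulAut.mul_apply, ← h6, h4, ← MulAut.mul_apply, inv_mul_cancel, MulAut.one_apply]
      · have h8 : (t' : MulAut D) y * ((t : MulAut D) y)⁻¹ ∈ Subgroup.zpowers w := by
          have : (t' : MulAut D) y * ((t : MulAut D) y)⁻¹ =
              ((t' : MulAut D) y * (y ^ (f t).2)⁻¹) * ((t : MulAut D) y * (y ^ (f t).2)⁻¹)⁻¹ := by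
            apply (Additive.ofMul (α := D)).injective
            simp only [ofMul_mul, ofMul_inv]
            abel
          rw [this]
          exact Subgroup.mul_mem _ h7 (Subgroup.inv_mem _ h5)
        have h9 := line_stable_inv hI t.2 (hL t t.2) _ h8
        rw [map_mul, map_inv, ← MulAut.mul_apply, ← MulAut.mul_apply, inv_mul_cancel, MulAut.one_apply] at h9
        exact h9
    rw [inv_mul_eq_one] at hs
    exact Subtype.ext hs
  have h2 : ∀ t : I, f t ∈ (Finset.Icc 1 (p - 1) ×ˢ Finset.Icc 1 (p - 1) : Finset (ℕ × ℕ)) := by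
    intro t
    obtain ⟨⟨h3, h4, _⟩, ⟨h5, h6, _⟩⟩ := hf t
    rw [Finset.mem_product, Finset.mem_Icc, Finset.mem_Icc]
    omega
  haveI : Fintype I := Fintype.ofFinite I
  rw [Nat.card_eq_fintype_card, ← Finset.card_univ]
  calc (Finset.univ : Finset I).card ≤ (Finset.Icc 1 (p - 1) ×ˢ Finset.Icc 1 (p - 1) : Finset (ℕ × ℕ)).card :=
        Finset.card_le_card_of_injOn f (fun t _ => h2 t) (fun t _ t' _ h => hinj h)
    _ = (p - 1) ^ 2 := by rw [Finset.card_product, Nat.card_Icc]; simp [pow_two]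

/-- the elements fixed by a non-trivial element of `I` lie in two proper subgroups with trivial intersection -/
theorem two_cover [Finite D] {p : ℕ} (hp : p.Prime) (hD : IsPGroup p D) {I : Subgroup (MulAut D)} (hI : ¬ p ∣ Nat.card I)
    (hr : Nat.card (Om p D) = p ^ 2) {w : D} (hw : w ^ p = 1) (hw1 : w ≠ 1)
    (hL : ∀ t ∈ I, t w ∈ Subgroup.zpowers w) : ∃ X₁ X₂ : Subgroup D, X₁ ⊓ X₂ = ⊥ ∧ X₁ ≠ ⊤ ∧ X₂ ≠ ⊤ ∧
      ∀ u : D, (∃ t ∈ I, t ≠ 1 ∧ t u = u) → u ∈ X₁ ∨ u ∈ X₂ := by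
  classical
  have hbt : (⊥ : Subgroup D) ≠ ⊤ := by
    intro h
    have : w ∈ (⊥ : Subgroup D) := by rw [h]; exact Subgroup.mem_top w
    exact hw1 (Subgroup.mem_bot.1 this)
  have hFxt : ∀ t : MulAut D, t ≠ 1 → Fx t ≠ ⊤ := by
    intro t ht h
    apply ht
    ext u
    have : u ∈ Fx t := by rw [h]; exact Subgroup.mem_top u
    rw [(mem_Fx t u).1 this, MulAut.one_apply]
  -- the first subgroup
  obtain ⟨X₁, hX1t, hX1, hX1'⟩ : ∃ X₁ : Subgroup D, X₁ ≠ ⊤ ∧ (∀ t ∈ I, t ≠ 1 → t w = w → Fx t = X₁) ∧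
      (X₁ = ⊥ ∨ ∃ t ∈ I, t ≠ 1 ∧ t w = w ∧ X₁ = Fx t) := by
    by_cases h : ∃ t ∈ I, t ≠ 1 ∧ t w = w
    · obtain ⟨t, ht, ht1, htw⟩ := h
      exact ⟨Fx t, hFxt t ht1, fun t' ht' ht1' htw' => same hp hD hI hr hw hw1 ht' ht ht1' ht1 htw' htw,
        Or.inr ⟨t, ht, ht1, htw, rfl⟩⟩
    · refine ⟨⊥, hbt, ?_, Or.inl rfl⟩
      intro t ht ht1 htw
      exact absurd ⟨t, ht, ht1, htw⟩ h
  obtain ⟨X₂, hX2t, hX2, hX2'⟩ : ∃ X₂ : Subgroup D, X₂ ≠ ⊤ ∧
      (∀ t ∈ I, t ≠ 1 → ∀ v : D, v ^ p = 1 → v ∉ Subgroup.zpowers w → t v = v → Fx t = X₂) ∧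
      (X₂ = ⊥ ∨ ∃ t ∈ I, t ≠ 1 ∧ ∃ v : D, v ^ p = 1 ∧ v ∉ Subgroup.zpowers w ∧ t v = v ∧ X₂ = Fx t) := by
    by_cases h : ∃ t ∈ I, t ≠ 1 ∧ ∃ v : D, v ^ p = 1 ∧ v ∉ Subgroup.zpowers w ∧ t v = v
    · obtain ⟨t, ht, ht1, v, hv, hvw, htv⟩ := h
      refine ⟨Fx t, hFxt t ht1, ?_, Or.inr ⟨t, ht, ht1, v, hv, hvw, htv, rfl⟩⟩
      intro t' ht' ht1' v' hv' hvw' htv'
      have hv1 : v ≠ 1 := by rintro rfl; exact hvw (Subgroup.one_mem _)
      have hcomm : t' * t = t * t' := abl hp hD hI hr hw hw1 ht' ht (hL t' ht') (hL t ht)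
      -- t' v ≡ v mod L
      have h1 : t' v * v⁻¹ ∈ Subgroup.zpowers w := by
        obtain ⟨a, ha, b, hb, hab⟩ := gen2 hp hr hw hw1 hv' hvw' v hv
        obtain ⟨m, rfl⟩ := Subgroup.mem_zpowers_iff.1 hb
        rw [← hab, map_mul, map_zpow, htv']
        have : t' a * v' ^ m * (a * v' ^ m)⁻¹ = t' a * a⁻¹ := by
          apply (Additive.ofMul (α := D)).injective
          simp only [ofMul_mul, ofMul_inv]
          abel
        rw [this]
        exact Subgroup.mul_mem _ (line_stable (hL t' ht') a ha) (Subgroup.inv_mem _ ha)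
      have h2 : t (t' v) = t' v := by
        rw [← MulAut.mul_apply, ← hcomm, MulAut.mul_apply, htv]
      have h3 : t' v * v⁻¹ ∈ Subgroup.zpowers v := by
        apply socle hp hD hI hr hv hv1 ht ht1 htv
        · rw [mul_pow, inv_pow, ← map_pow, hv, map_one, inv_one, mul_one]
        · rw [map_mul, map_inv, h2, htv]
      have h4 : t' v * v⁻¹ = 1 := by
        by_contra hcon
        apply hvw
        have h5 := mem_zp hp hD hv h3 hcon
        exact (Subgroup.zpowers_le.2 h1) h5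
      have h5 : t' v = v := mul_inv_eq_one.1 h4
      exact same hp hD hI hr hv hv1 ht' ht ht1' ht1 h5 htv
    · refine ⟨⊥, hbt, ?_, Or.inl rfl⟩
      intro t ht ht1 v hv hvw htv
      exact absurd ⟨t, ht, ht1, v, hv, hvw, htv⟩ h
  refine ⟨X₁, X₂, ?_, hX1t, hX2t, ?_⟩
  · rw [eq_bot_iff]
    intro u hu
    rw [Subgroup.mem_bot]
    by_contra hu1
    obtain ⟨n, hn1, hnp⟩ := ex_pow hp hD hu1
    have hun1 : u ^ n ∈ X₁ := X₁.pow_mem (Subgroup.mem_inf.1 hu).1 n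
    have hun2 : u ^ n ∈ X₂ := X₂.pow_mem (Subgroup.mem_inf.1 hu).2 n
    rcases hX1' with h | ⟨t, ht, ht1, htw, hX⟩
    · rw [h, Subgroup.mem_bot] at hun1; exact hn1 hun1
    rcases hX2' with h | ⟨t', ht', ht1', v, hv, hvw, htv, hX'⟩
    · rw [h, Subgroup.mem_bot] at hun2; exact hn1 hun2
    rw [hX, mem_Fx] at hun1
    rw [hX', mem_Fx] at hun2
    have hv1 : v ≠ 1 := by rintro rfl; exact hvw (Subgroup.one_mem _)
    have h1 := socle hp hD hI hr hw hw1 ht ht1 htw _ hnp hun1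
    have h2 := socle hp hD hI hr hv hv1 ht' ht1' htv _ hnp hun2
    apply hvw
    have h3 := mem_zp hp hD hv h2 hn1
    exact (Subgroup.zpowers_le.2 h1) h3
  · rintro u ⟨t, ht, ht1, htu⟩
    by_cases hu1 : u = 1
    · left; rw [hu1]; exact Subgroup.one_mem _
    obtain ⟨n, hn1, hnp⟩ := ex_pow hp hD hu1
    have htn : t (u ^ n) = u ^ n := by rw [map_pow, htu]
    by_cases hnw : u ^ n ∈ Subgroup.zpowers w
    · left
      have h1 := mem_zp hp hD hw hnw hn1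
      have h2 : t w = w := by
        obtain ⟨m, hm⟩ := Subgroup.mem_zpowers_iff.1 h1
        rw [← hm, map_zpow, htn]
      rw [← hX1 t ht ht1 h2]
      exact htu
    · right
      rw [← hX2 t ht ht1 (u ^ n) hnp hnw htn]
      exact htu

/-- the regular elements -/
def Reg (I : Subgroup (MulAut D)) : Set D := {u | ∀ t ∈ I, t u = u → t = 1}

theorem reg_count [Finite D] {p : ℕ} (hp : p.Prime) (hD : IsPGroup p D) {I : Subgroup (MulAut D)} (hI : ¬ p ∣ Nat.card I)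
    (hr : Nat.card (Om p D) = p ^ 2) {w : D} (hw : w ^ p = 1) (hw1 : w ≠ 1)
    (hL : ∀ t ∈ I, t w ∈ Subgroup.zpowers w) : (p - 1) * (Nat.card D - p) ≤ p * (Reg I).ncard := by
  classical
  obtain ⟨X₁, X₂, hinf, h1t, h2t, hcov⟩ := two_cover hp hD hI hr hw hw1 hL
  have hsub : ((Reg I)ᶜ : Set D) ⊆ (X₁ : Set D) ∪ (X₂ : Set D) := by
    intro u hu
    have : ∃ t ∈ I, t ≠ 1 ∧ t u = u := by
      by_contra hcon
      push Not at hcon
      apply hu
      intro t ht htu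
      by_contra ht1
      exact hcon t ht ht1 htu
    exact hcov u this
  have hc1 : ((Reg I)ᶜ : Set D).ncard ≤ ((X₁ : Set D) ∪ (X₂ : Set D)).ncard := Set.ncard_le_ncard hsub (Set.toFinite _)
  have hc2 := Set.ncard_union_add_ncard_inter (X₁ : Set D) (X₂ : Set D) (Set.toFinite _) (Set.toFinite _)
  have hc3 : ((X₁ : Set D) ∩ (X₂ : Set D)).ncard = 1 := by
    have : (X₁ : Set D) ∩ (X₂ : Set D) = {1} := by
      rw [← Subgroup.coe_inf, hinf, Subgroup.coe_bot]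
    rw [this, Set.ncard_singleton]
  have hn1 : (X₁ : Set D).ncard = Nat.card X₁ := (Nat.card_coe_set_eq _).symm
  have hn2 : (X₂ : Set D).ncard = Nat.card X₂ := (Nat.card_coe_set_eq _).symm
  have hc4 : Set.ncard (Reg I) + ((Reg I)ᶜ : Set D).ncard = Nat.card D := Set.ncard_add_ncard_compl (Reg I) (Set.toFinite _) (Set.toFinite _)
  -- product bound
  have hprod : Nat.card X₁ * Nat.card X₂ ≤ Nat.card D := by
    rw [← Nat.card_prod]
    apply Nat.card_le_card_of_injective (fun x : X₁ × X₂ => (x.1 : D) * (x.2 : D))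
    rintro ⟨a, b⟩ ⟨c, d⟩ h
    simp only at h
    have h2 : (c : D)⁻¹ * (a : D) = (d : D) * (b : D)⁻¹ := by
      rw [inv_mul_eq_iff_eq_mul, ← mul_assoc, eq_mul_inv_iff_mul_eq]
      exact h
    have h3 : (c : D)⁻¹ * (a : D) ∈ X₁ ⊓ X₂ := by
      refine Subgroup.mem_inf.2 ⟨X₁.mul_mem (X₁.inv_mem c.2) a.2, ?_⟩
      rw [h2]
      exact X₂.mul_mem d.2 (X₂.inv_mem b.2)
    rw [hinf, Subgroup.mem_bot] at h3
    have h4 : (a : D) = c := by rw [inv_mul_eq_one] at h3; exact h3.symm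
    rw [h3] at h2
    have h5 : (b : D) = d := (mul_inv_eq_one.1 h2.symm).symm
    exact Prod.ext (Subtype.ext h4) (Subtype.ext h5)
  haveI : Fact p.Prime := ⟨hp⟩
  obtain ⟨e, he⟩ := IsPGroup.iff_card.1 hD
  have hpow : ∀ X : Subgroup D, X ≠ ⊤ → (Nat.card X = 1 ∨ p ≤ Nat.card X) ∧ p * Nat.card X ≤ Nat.card D := by
    intro X hX
    have h1 : Nat.card X ∣ p ^ e := by rw [← he]; exact Subgroup.card_subgroup_dvd_card X
    obtain ⟨k, hk, hk2⟩ := (Nat.dvd_prime_pow hp).1 h1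
    constructor
    · rcases Nat.eq_zero_or_pos k with h | h
      · left; rw [hk2, h, pow_zero]
      · right; rw [hk2]; exact Nat.le_self_pow (by omega) p
    · have h2 : k < e := by
        rcases Nat.lt_or_ge k e with h | h
        · exact h
        · exfalso
          apply hX
          apply Subgroup.eq_top_of_card_eq
          rw [hk2, he]
          congr 1
          omega
      rw [hk2, he, ← pow_succ']
      exact Nat.pow_le_pow_right hp.pos h2
  obtain ⟨ha1, hb1⟩ := hpow X₁ h1t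
  obtain ⟨ha2, hb2⟩ := hpow X₂ h2t
  have hsum : p * (Nat.card X₁ + Nat.card X₂) ≤ Nat.card D + p ^ 2 := by
    rcases ha1 with h | h
    · rw [h]; nlinarith [hp.pos]
    rcases ha2 with h' | h'
    · rw [h']; nlinarith [hp.pos]
    · obtain ⟨x, hx⟩ := Nat.exists_eq_add_of_le h
      obtain ⟨y, hy⟩ := Nat.exists_eq_add_of_le h'
      rw [hx, hy] at hprod ⊢
      nlinarith [Nat.zero_le (x * y)]
  -- conclusion
  have hDp : p ≤ Nat.card D := by
    have h1 := card_zp hp hw hw1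
    rw [← h1]
    exact Subgroup.card_le_card_group _
  have hp1 := hp.one_lt
  obtain ⟨q, rfl⟩ : ∃ q, p = q + 1 := ⟨p - 1, by omega⟩
  obtain ⟨d, hd⟩ := Nat.exists_eq_add_of_le hDp
  rw [hn1, hn2, hc3] at hc2
  simp only [Nat.add_sub_cancel]
  rw [hd, Nat.add_sub_cancel_left]
  rw [hd] at hsum hc4
  nlinarith

theorem heights0 [Finite D] {p : ℕ} (hp : p.Prime) (hD : IsPGroup p D) {I : Subgroup (MulAut D)} (hI : ¬ p ∣ Nat.card I)
    (hr : Nat.card (Om p D) = p ^ 2) (h3 : p ^ 3 ≤ Nat.card D) {w : D} (hw : w ^ p = 1) (hw1 : w ≠ 1)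
    (hL : ∀ t ∈ I, t w ∈ Subgroup.zpowers w) : Nat.card I * Nat.card D < p ^ 2 * (Reg I).ncard := by
  have h1 := reg_count hp hD hI hr hw hw1 hL
  have h2 := card_I_le hp hD hI hr hw hw1 hL
  have hp1 := hp.one_lt
  obtain ⟨q, rfl⟩ : ∃ q, p = q + 1 := ⟨p - 1, by omega⟩
  simp only [Nat.add_sub_cancel] at h1 h2
  have hDp : (q + 1) ≤ Nat.card D := by
    have : (q + 1) ≤ (q + 1) ^ 3 := Nat.le_self_pow (by norm_num) _
    omega
  obtain ⟨d, hd⟩ := Nat.exists_eq_add_of_le hDp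
  rw [hd, Nat.add_sub_cancel_left] at h1
  have h4 : (q + 1) ^ 2 < Nat.card D := lt_of_lt_of_le (Nat.pow_lt_pow_right (by omega) (by norm_num)) h3
  have hq : 0 < q := by omega
  have h5 : Nat.card I * Nat.card D ≤ q ^ 2 * Nat.card D := Nat.mul_le_mul_right _ h2
  have h6 : q ^ 2 * Nat.card D < (q + 1) * (q * d) := by
    rw [hd] at h4 ⊢
    nlinarith
  have h7 : (q + 1) * (q * d) ≤ (q + 1) * ((q + 1) * (Reg I).ncard) := Nat.mul_le_mul_left _ h1
  have h8 : (q + 1) * ((q + 1) * (Reg I).ncard) = (q + 1) ^ 2 * (Reg I).ncard := by ring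
  omega

end Pool.Agent.LE.Rank2
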