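import Mathlib
import Pool.Agent.helper67.LE.R2Two

/-!
# Coprime automorphisms of finite abelian `p`-groups of rank 2: regular cosets (project LE, MP_baa4d7_al)
-/

set_option autoImplicit false

namespace Pool.Agent.LE.Rank2

variable {D : Type} [CommGroup D]

/-- the `n`-th powers -/
def Pw (n : ℕ) (D : Type) [CommGroup D] : Subgroup D := (powMonoidHom n : D →* D).range

theorem mem_Pw {n : ℕ} (u : D) : u ∈ Pw n D ↔ ∃ v : D, v ^ n = u := Iff.rfl

theorem card_ker_range [Finite D] (n : ℕ) :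
    Nat.card (powMonoidHom n : D →* D).ker * Nat.card (Pw n D) = Nat.card D := by
  unfold Pw
  rw [Nat.card_congr (QuotientGroup.quotientKerEquivRange (powMonoidHom n : D →* D)).symm.toEquiv, mul_comm]
  exact (Subgroup.card_eq_card_quotient_mul_card_subgroup _).symm

theorem index_Pw [Finite D] (n : ℕ) : (Pw n D).index = Nat.card (powMonoidHom n : D →* D).ker := by
  have h1 := card_ker_range (D := D) n
  have h2 := Subgroup.card_mul_index (Pw n D)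
  rw [← h1, mul_comm] at h2
  exact Nat.eq_of_mul_eq_mul_right Nat.card_pos h2

theorem top_of [Finite D] {p : ℕ} (hp : p.Prime) (K : Subgroup D) (hK : K.index = p ^ 2) {x z : D} (hx : x ∉ K)
    (hz : z ∉ K ⊔ Subgroup.zpowers x) : K ⊔ Subgroup.zpowers x ⊔ Subgroup.zpowers z = ⊤ := by
  have step : ∀ (A : Subgroup D) (y : D), y ∉ A → (A ⊔ Subgroup.zpowers y).index ∣ A.index ∧
      (A ⊔ Subgroup.zpowers y).index < A.index := by
    intro A y hy
    have hle : A ≤ A ⊔ Subgroup.zpowers y := le_sup_left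
    have h1 := Subgroup.relIndex_mul_index hle
    have h2 : A.relIndex (A ⊔ Subgroup.zpowers y) ≠ 1 := by
      intro h
      rw [Subgroup.relIndex_eq_one] at h
      exact hy (h ((le_sup_right : Subgroup.zpowers y ≤ _) (Subgroup.mem_zpowers y)))
    have h3 : A.relIndex (A ⊔ Subgroup.zpowers y) ≠ 0 := by
      intro h
      rw [h, zero_mul] at h1
      exact Subgroup.index_ne_zero_of_finite h1.symm
    have h4 : (A ⊔ Subgroup.zpowers y).index ≠ 0 := Subgroup.index_ne_zero_of_finite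
    refine ⟨Dvd.intro_left _ h1, ?_⟩
    rw [← h1]
    have : 2 ≤ A.relIndex (A ⊔ Subgroup.zpowers y) := by omega
    have h5 : 0 < (A ⊔ Subgroup.zpowers y).index := Nat.pos_of_ne_zero h4
    nlinarith
  obtain ⟨h1, h2⟩ := step K x hx
  obtain ⟨h3, h4⟩ := step _ z hz
  rw [hK] at h1 h2
  obtain ⟨k, hk, hk2⟩ := (Nat.dvd_prime_pow hp).1 h1
  rw [hk2] at h3 h4 h2
  have hk3 : k < 2 := by
    by_contra hcon
    have : k = 2 := by omega
    rw [this] at h2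
    exact lt_irrefl _ h2
  obtain ⟨j, hj, hj2⟩ := (Nat.dvd_prime_pow hp).1 h3
  rw [hj2] at h4
  have hj3 : j < k := by
    by_contra hcon
    have := Nat.pow_le_pow_right hp.pos (Nat.le_of_not_lt hcon)
    omega
  have hj4 : j = 0 := by omega
  rw [hj4, pow_zero, Subgroup.index_eq_one] at hj2
  exact hj2

/-- an element of `I` which fixes two generators modulo `p`-th powers is trivial -/
theorem triv_of_gen [Finite D] {p : ℕ} (hp : p.Prime) (hD : IsPGroup p D) {I : Subgroup (MulAut D)} (hI : ¬ p ∣ Nat.card I)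
    {x z : D} (htop : Pw p D ⊔ Subgroup.zpowers x ⊔ Subgroup.zpowers z = ⊤) {t : MulAut D} (ht : t ∈ I)
    (hx : t x * x⁻¹ ∈ Pw p D) (hz : t z * z⁻¹ ∈ Pw p D) : t = 1 := by
  apply eq_one_of_frattini hp hD hI t (pow_card_I ht)
  intro u
  have hu : u ∈ Pw p D ⊔ Subgroup.zpowers x ⊔ Subgroup.zpowers z := by rw [htop]; exact Subgroup.mem_top u
  obtain ⟨a, ha, b, hb, rfl⟩ := Subgroup.mem_sup.1 hu
  obtain ⟨c, hc, d, hd, rfl⟩ := Subgroup.mem_sup.1 ha
  obtain ⟨m, rfl⟩ := Subgroup.mem_zpowers_iff.1 hb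
  obtain ⟨n, rfl⟩ := Subgroup.mem_zpowers_iff.1 hd
  obtain ⟨c', rfl⟩ := hc
  rw [powMonoidHom_apply]
  have h1 : t (c' ^ p * x ^ n * z ^ m) * (c' ^ p * x ^ n * z ^ m)⁻¹ =
      (t c' * c'⁻¹) ^ p * (t x * x⁻¹) ^ n * (t z * z⁻¹) ^ m := by
    simp only [map_mul, map_zpow, map_pow, mul_zpow, mul_pow, inv_zpow, inv_pow]
    apply (Additive.ofMul (α := D)).injective
    simp only [ofMul_mul, ofMul_inv]
    abel
  have h2 : t (c' ^ p * x ^ n * z ^ m) * (c' ^ p * x ^ n * z ^ m)⁻¹ ∈ Pw p D := by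
    rw [h1]
    exact Subgroup.mul_mem _ (Subgroup.mul_mem _ ⟨t c' * c'⁻¹, rfl⟩ (Subgroup.zpow_mem _ hx n)) (Subgroup.zpow_mem _ hz m)
  obtain ⟨v, hv⟩ := h2
  refine ⟨v, ?_⟩
  rw [powMonoidHom_apply] at hv
  rw [hv, mul_comm (c' ^ p * x ^ n * z ^ m) (t (c' ^ p * x ^ n * z ^ m) * (c' ^ p * x ^ n * z ^ m)⁻¹),
    inv_mul_cancel_right]

/-- **the case `a ≠ b`**: an invariant line and a regular coset modulo the `p`-th powers -/
theorem ex_reg1 [Finite D] {p : ℕ} (hp : p.Prime) (hD : IsPGroup p D) {I : Subgroup (MulAut D)} (hI : ¬ p ∣ Nat.card I)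
    (hr : Nat.card (Om p D) = p ^ 2) {e : ℕ} (he : 1 ≤ e) (hc : Nat.card (Pw (p ^ e) D) = p) :
    (∃ w : D, w ^ p = 1 ∧ w ≠ 1 ∧ ∀ t ∈ I, t w ∈ Subgroup.zpowers w) ∧
    ∃ u₀ : D, u₀ ∉ Pw p D ∧ ∀ t ∈ I, t u₀ * u₀⁻¹ ∈ Pw p D → t = 1 := by
  haveI : Fact p.Prime := ⟨hp⟩
  -- the line
  have h1 : ∃ w ∈ Pw (p ^ e) D, w ≠ 1 := by
    by_contra hcon
    push Not at hcon
    have h2 : Pw (p ^ e) D = ⊥ := by
      rw [eq_bot_iff]
      intro x hx
      exact Subgroup.mem_bot.2 (hcon x hx)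
    rw [h2, Subgroup.card_bot] at hc
    exact hp.one_lt.ne hc
  obtain ⟨w, ⟨z, hz⟩, hw1⟩ := h1
  rw [powMonoidHom_apply] at hz
  have hPp : ∀ x ∈ Pw (p ^ e) D, x ^ p = 1 := by
    intro x hx
    have h2 := pow_card_eq_one' (x := (⟨x, hx⟩ : Pw (p ^ e) D))
    rw [hc] at h2
    exact congrArg (fun y : Pw (p ^ e) D => (y : D)) h2
  have hw : w ^ p = 1 := hPp w ⟨z, hz⟩
  have hPw : Pw (p ^ e) D = Subgroup.zpowers w := by
    symm
    apply Subgroup.eq_of_le_of_card_ge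
    · rw [Subgroup.zpowers_le]; exact ⟨z, hz⟩
    · rw [hc, card_zp hp hw hw1]
  have hL : ∀ t ∈ I, t w ∈ Subgroup.zpowers w := by
    intro t _
    rw [← hPw, ← hz]
    exact ⟨t z, by rw [powMonoidHom_apply, map_pow]⟩
  refine ⟨⟨w, hw, hw1, hL⟩, ?_⟩
  have hidx : (Pw p D).index = p ^ 2 := by rw [index_Pw]; exact hr
  -- D₀
  set D₀ : Subgroup D := (powMonoidHom (p ^ e) : D →* D).ker with hD0
  have hD0m : ∀ x, x ∈ D₀ ↔ x ^ p ^ e = 1 := by
    intro x; rw [hD0, MonoidHom.mem_ker, powMonoidHom_apply]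
  have hPD : Pw p D ≤ D₀ := by
    rintro x ⟨y, rfl⟩
    rw [hD0m, powMonoidHom_apply, ← pow_mul, mul_comm, pow_mul]
    exact hPp _ ⟨y, rfl⟩
  have hzD : z ∉ D₀ := by
    rw [hD0m, hz]; exact hw1
  have hcD : Nat.card D₀ * p = Nat.card D := by
    have := card_ker_range (D := D) (p ^ e)
    rw [hc] at this
    exact this
  have hcP : p ^ 2 * Nat.card (Pw p D) = Nat.card D := by
    have := card_ker_range (D := D) p
    rw [← this, ← hr]
    rfl
  have hne : ∃ d ∈ D₀, d ∉ Pw p D := by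
    by_contra hcon
    push Not at hcon
    have h2 : Nat.card D₀ ≤ Nat.card (Pw p D) := Subgroup.card_le_of_le hcon
    have h3 : 0 < Nat.card (Pw p D) := Nat.card_pos
    have := hp.one_lt
    nlinarith
  obtain ⟨d, hd, hdP⟩ := hne
  have hgen : ∀ x ∈ D₀, x ∉ Pw p D → ∀ y, y ∉ D₀ → Pw p D ⊔ Subgroup.zpowers x ⊔ Subgroup.zpowers y = ⊤ := by
    intro x hx hxP y hy
    apply top_of hp _ hidx hxP
    intro h
    apply hy
    have : Pw p D ⊔ Subgroup.zpowers x ≤ D₀ := sup_le hPD (Subgroup.zpowers_le.2 hx)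
    exact this h
  have hzd : z * d ∉ D₀ := by
    intro h
    apply hzD
    have := D₀.mul_mem h (D₀.inv_mem hd)
    rwa [mul_assoc, mul_inv_cancel, mul_one] at this
  by_contra hcon
  push Not at hcon
  obtain ⟨t₁, ht1, ht1f, ht1n⟩ := hcon z (fun h => hzD (hPD h))
  obtain ⟨t₂, ht2, ht2f, ht2n⟩ := hcon (z * d) (fun h => hzd (hPD h))
  have hcomm : t₂ * t₁ = t₁ * t₂ := abl hp hD hI hr hw hw1 ht2 ht1 (hL t₂ ht2) (hL t₁ ht1)
  set g : D := z * d with hg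
  set x : D := t₁ g * g⁻¹ with hx
  -- x ∈ D₀
  have hgw : g ^ p ^ e = w := by
    rw [hg, mul_pow, hz, (hD0m d).1 hd, mul_one]
  have ht1w : t₁ w = w := by
    have h2 : (t₁ z * z⁻¹) ^ p ^ e = 1 := (hD0m _).1 (hPD ht1f)
    rw [mul_pow, inv_pow, ← map_pow, hz, mul_inv_eq_one] at h2
    exact h2
  have hxD : x ∈ D₀ := by
    rw [hD0m, hx, mul_pow, inv_pow, ← map_pow, hgw, ht1w, mul_inv_cancel]
  have ht2x : t₂ x * x⁻¹ ∈ Pw p D := by
    obtain ⟨v, hv⟩ := ht2f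
    rw [powMonoidHom_apply] at hv
    have h2 : t₂ x * x⁻¹ = (t₁ v * v⁻¹) ^ p := by
      have h3 : t₂ g = v ^ p * g := by rw [hv, inv_mul_cancel_right]
      have h4 : t₂ (t₁ g) = t₁ (v ^ p) * t₁ g := by
        rw [← MulAut.mul_apply, hcomm, MulAut.mul_apply, h3, map_mul]
      rw [hx, map_mul, map_inv, h4, h3, map_pow, mul_pow, inv_pow]
      apply (Additive.ofMul (α := D)).injective
      simp only [ofMul_mul, ofMul_inv]
      abel
    rw [h2]
    exact ⟨_, rfl⟩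
  by_cases hxP : x ∈ Pw p D
  · -- t₁ fixes z, z d
    apply ht1n
    apply triv_of_gen hp hD hI (hgen d hd hdP z hzD) ht1 _ ht1f
    have h2 : t₁ d * d⁻¹ = x * (t₁ z * z⁻¹)⁻¹ := by
      rw [hx, hg, map_mul]
      apply (Additive.ofMul (α := D)).injective
      simp only [ofMul_mul, ofMul_inv]
      abel
    rw [h2]
    exact Subgroup.mul_mem _ hxP (Subgroup.inv_mem _ ht1f)
  · apply ht2n
    exact triv_of_gen hp hD hI (hgen x hxD hxP g hzd) ht2 ht2x ht2f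

/-- **the case `a = b ≥ 2`**: a regular coset modulo the `p ^ 2`-th powers -/
theorem ex_reg2 [Finite D] {p : ℕ} (hp : p.Prime) (hD : IsPGroup p D) {I : Subgroup (MulAut D)} (hI : ¬ p ∣ Nat.card I)
    (hr : Nat.card (Om p D) = p ^ 2) {e : ℕ} (he : 1 ≤ e) (hexp : ∀ x : D, x ^ p ^ (e + 1) = 1)
    (hom : ∀ u : D, u ^ p = 1 → ∃ x : D, x ^ p ^ e = u) :
    ∃ u₀ : D, u₀ ^ p ∉ Pw (p ^ 2) D ∧ ∀ t ∈ I, t u₀ * u₀⁻¹ ∈ Pw (p ^ 2) D → t = 1 := by
  haveI : Fact p.Prime := ⟨hp⟩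
  obtain ⟨e', rfl⟩ : ∃ e', e = e' + 1 := ⟨e - 1, by omega⟩
  -- a non-trivial element of order p
  have h1 : ∃ w : D, w ^ p = 1 ∧ w ≠ 1 := by
    by_contra hcon
    push Not at hcon
    have h2 : Om p D = ⊥ := by
      rw [eq_bot_iff]
      intro x hx
      exact Subgroup.mem_bot.2 (hcon x ((mem_Om x).1 hx))
    rw [h2, Subgroup.card_bot] at hr
    have := hp.one_lt
    nlinarith
  obtain ⟨w, hw, hw1⟩ := h1
  obtain ⟨y, hy, hyw⟩ := ex_out hp hr hw hw1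
  obtain ⟨v, hv⟩ := hom w hw
  obtain ⟨z, hz⟩ := hom y hy
  have hPw2 : ∀ x ∈ Pw (p ^ 2) D, x ^ p ^ (e' + 1) = 1 := by
    rintro x ⟨c, rfl⟩
    rw [powMonoidHom_apply, ← pow_mul, ← pow_add]
    have : c ^ p ^ (2 + (e' + 1)) = (c ^ p ^ (e' + 1 + 1)) ^ p := by
      rw [← pow_mul, ← pow_succ]
      congr 2
      ring
    rw [this, hexp, one_pow]
  have hvz : (v * z ^ p) ^ p ^ (e' + 1) = w := by
    rw [mul_pow, hv, ← pow_mul, ← pow_succ', hexp, mul_one]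
  have hord : ∀ u : D, u ^ p ^ (e' + 1) = w → u ^ p ∉ Pw (p ^ 2) D := by
    rintro u hu ⟨c, hc⟩
    rw [powMonoidHom_apply] at hc
    apply hw1
    rw [← hu, pow_succ', pow_mul, ← hc, ← pow_mul, ← pow_add]
    have : c ^ p ^ (2 + e') = c ^ p ^ (e' + 1 + 1) := by congr 2; ring
    rw [this, hexp]
  by_contra hcon
  push Not at hcon
  obtain ⟨t₁, ht1, ht1f, ht1n⟩ := hcon v (hord v hv)
  obtain ⟨t₂, ht2, ht2f, ht2n⟩ := hcon (v * z ^ p) (hord _ hvz)
  have ht1w : t₁ w = w := by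
    have h2 := hPw2 _ ht1f
    rw [mul_pow, inv_pow, ← map_pow, hv, mul_inv_eq_one] at h2
    exact h2
  have ht2w : t₂ w = w := by
    have h2 := hPw2 _ ht2f
    rw [mul_pow, inv_pow, ← map_pow, hvz, mul_inv_eq_one] at h2
    exact h2
  have hcomm : t₂ * t₁ = t₁ * t₂ := abl hp hD hI hr hw hw1 ht2 ht1 (by rw [ht2w]; exact Subgroup.mem_zpowers w)
    (by rw [ht1w]; exact Subgroup.mem_zpowers w)
  set q : D := v * z ^ p with hq
  obtain ⟨k₁, hk1⟩ := ht1f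
  obtain ⟨k₂, hk2⟩ := ht2f
  rw [powMonoidHom_apply] at hk1 hk2
  set g : D := k₁ ^ p * (t₁ z * z⁻¹) with hg
  have hd : t₁ q * q⁻¹ = g ^ p := by
    have h2 : t₁ v = k₁ ^ p ^ 2 * v := by rw [hk1, inv_mul_cancel_right]
    rw [hq, map_mul, h2, map_pow, hg, mul_pow, mul_pow, inv_pow, ← pow_mul, pow_two]
    apply (Additive.ofMul (α := D)).injective
    simp only [ofMul_mul, ofMul_inv]
    abel
  have ht2g : (t₂ g * g⁻¹) ^ p = (t₁ k₂ * k₂⁻¹) ^ p ^ 2 := by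
    have h3 : t₂ q = k₂ ^ p ^ 2 * q := by rw [hk2, inv_mul_cancel_right]
    have h4 : t₂ (t₁ q) = t₁ (k₂ ^ p ^ 2) * t₁ q := by
      rw [← MulAut.mul_apply, hcomm, MulAut.mul_apply, h3, map_mul]
    rw [mul_pow, inv_pow, ← map_pow, ← hd, map_mul, map_inv, h4, h3, map_pow, mul_pow, inv_pow]
    apply (Additive.ofMul (α := D)).injective
    simp only [ofMul_mul, ofMul_inv]
    abel
  have ht2g2 : t₂ (g ^ p ^ (e' + 1)) = g ^ p ^ (e' + 1) := by
    have h3 : (t₂ g * g⁻¹) ^ p ^ (e' + 1) = 1 := by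
      rw [pow_succ', pow_mul, ht2g, ← pow_mul, ← pow_add]
      have : ∀ c : D, c ^ p ^ (2 + e') = 1 := by
        intro c
        rw [← hexp c]
        congr 2
        ring
      exact this _
    rw [mul_pow, inv_pow, ← map_pow, mul_inv_eq_one] at h3
    exact h3
  have hgy : g ^ p ^ (e' + 1) = t₁ y * y⁻¹ := by
    rw [hg, mul_pow, mul_pow, inv_pow, ← map_pow, hz, ← pow_mul, ← pow_succ', hexp, one_mul]
  have hsoc : g ^ p ^ (e' + 1) ∈ Subgroup.zpowers w := by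
    apply socle hp hD hI hr hw hw1 ht2 ht2n ht2w _ _ ht2g2
    rw [← pow_mul, ← pow_succ, hexp]
  rw [hgy] at hsoc
  exact ht1n (triv_of_line hp hD hI hr hw hw1 hy hyw ht1 ht1w hsoc)

end Pool.Agent.LE.Rank2
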