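import Mathlib
import Pool.Agent.helper67.LE.R2Ex

/-!
# Coprime automorphisms of finite abelian `p`-groups of rank 2: counting (project LE, MP_baa4d7_al)
-/

set_option autoImplicit false

namespace Pool.Agent.LE.Rank2

variable {D : Type} [CommGroup D]

/-- the elements of order `p` in `X` -/
def Op (p : ℕ) (X : Subgroup D) : Set D := {w | w ∈ X ∧ w ^ p = 1 ∧ w ≠ 1}

theorem card_Op_ge [Finite D] {p : ℕ} (hp : p.Prime) (hD : IsPGroup p D) {X : Subgroup D} (hX : X ≠ ⊥) :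
    p - 1 ≤ (Op p X).ncard := by
  obtain ⟨x, hx, hx1⟩ : ∃ x ∈ X, x ≠ 1 := by
    by_contra hcon
    push Not at hcon
    apply hX
    rw [eq_bot_iff]
    intro x hx
    exact Subgroup.mem_bot.2 (hcon x hx)
  obtain ⟨n, hn1, hnp⟩ := ex_pow hp hD hx1
  set w := x ^ n with hw
  have hwX : w ∈ X := X.pow_mem hx n
  have hsub : ((Subgroup.zpowers w : Set D) \ {1}) ⊆ Op p X := by
    rintro y ⟨hy, hy1⟩
    refine ⟨(Subgroup.zpowers_le.2 hwX) hy, ?_, hy1⟩
    obtain ⟨m, rfl⟩ := Subgroup.mem_zpowers_iff.1 hy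
    rw [← zpow_natCast, ← zpow_mul, mul_comm, zpow_mul, zpow_natCast, hnp, one_zpow]
  have h1 : ((Subgroup.zpowers w : Set D) \ {1}).ncard = p - 1 := by
    rw [Set.ncard_diff_singleton_of_mem (Subgroup.one_mem _)]
    rw [← Nat.card_coe_set_eq]
    have := card_zp hp hnp hn1
    simp only [SetLike.coe_sort_coe]
    rw [this]
  rw [← h1]
  exact Set.ncard_le_ncard hsub (Set.toFinite _)

theorem card_Om_diff [Finite D] {p : ℕ} (hp : p.Prime) (hr : Nat.card (Om p D) = p ^ 2) :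
    ((Om p D : Set D) \ {1}).ncard = p ^ 2 - 1 := by
  rw [Set.ncard_diff_singleton_of_mem (Subgroup.one_mem _), ← Nat.card_coe_set_eq]
  simp only [SetLike.coe_sort_coe]
  rw [hr]

/-- the number of the non-regular elements -/
theorem nonreg_count [Finite D] {p : ℕ} (hp : p.Prime) (hD : IsPGroup p D) {I : Subgroup (MulAut D)} (hI : ¬ p ∣ Nat.card I)
    (hr : Nat.card (Om p D) = p ^ 2) {m : ℕ} (hm : 1 ≤ m) (hom : ∀ u : D, u ^ p = 1 → ∃ v : D, v ^ p ^ (m - 1) = u) :
    p ^ m * ((Reg I)ᶜ : Set D).ncard ≤ (p + 1) * Nat.card D := by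
  classical
  haveI : Fintype (MulAut D) := Fintype.ofFinite _
  haveI : Fintype D := Fintype.ofFinite _
  set S : Finset (Subgroup D) := (Finset.univ.filter (fun t : MulAut D => t ∈ I ∧ t ≠ 1 ∧ Fx t ≠ ⊥)).image Fx with hS
  have hmem : ∀ X, X ∈ S ↔ ∃ t ∈ I, t ≠ 1 ∧ Fx t ≠ ⊥ ∧ Fx t = X := by
    intro X
    rw [hS, Finset.mem_image]
    constructor
    · rintro ⟨t, ht, rfl⟩
      rw [Finset.mem_filter] at ht
      exact ⟨t, ht.2.1, ht.2.2.1, ht.2.2.2, rfl⟩
    · rintro ⟨t, h1, h2, h3, rfl⟩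
      exact ⟨t, by rw [Finset.mem_filter]; exact ⟨Finset.mem_univ _, h1, h2, h3⟩, rfl⟩
  -- S has at most p + 1 elements
  have hScard : S.card ≤ p + 1 := by
    have hdis : (S : Set (Subgroup D)).PairwiseDisjoint (fun X => (Op p X).toFinset) := by
      intro X hX Y hY hXY
      simp only [Function.onFun]
      rw [Finset.disjoint_left]
      intro w hw1 hw2
      rw [Set.mem_toFinset] at hw1 hw2
      apply hXY
      obtain ⟨t, ht, ht1, _, rfl⟩ := (hmem X).1 hX
      obtain ⟨t', ht', ht1', _, rfl⟩ := (hmem Y).1 hY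
      exact same hp hD hI hr hw1.2.1 hw1.2.2 ht ht' ht1 ht1' hw1.1 hw2.1
    have h1 : (S.biUnion (fun X => (Op p X).toFinset)).card = ∑ X ∈ S, ((Op p X).toFinset).card :=
      Finset.card_biUnion hdis
    have h2 : S.card * (p - 1) ≤ ∑ X ∈ S, ((Op p X).toFinset).card := by
      rw [← smul_eq_mul, ← Finset.sum_const]
      apply Finset.sum_le_sum
      intro X hX
      rw [← Set.ncard_eq_toFinset_card']
      obtain ⟨t, _, _, ht, rfl⟩ := (hmem X).1 hX
      exact card_Op_ge hp hD ht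
    have h3 : (S.biUnion (fun X => (Op p X).toFinset)).card ≤ p ^ 2 - 1 := by
      rw [← card_Om_diff hp hr, Set.ncard_eq_toFinset_card']
      apply Finset.card_le_card
      intro w hw
      rw [Finset.mem_biUnion] at hw
      obtain ⟨X, _, hX⟩ := hw
      rw [Set.mem_toFinset] at hX ⊢
      exact ⟨(mem_Om w).2 hX.2.1, hX.2.2⟩
    have hp1 := hp.one_lt
    obtain ⟨q, rfl⟩ : ∃ q, p = q + 1 := ⟨p - 1, by omega⟩
    have h4 : (q + 1) ^ 2 - 1 = (q + 2) * q := by
      have : (q + 1) ^ 2 = (q + 2) * q + 1 := by ring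
      omega
    rw [Nat.add_sub_cancel] at h2
    have h5 : S.card * q ≤ (q + 2) * q := by omega
    exact Nat.le_of_mul_le_mul_right h5 (by omega)
  rcases Set.eq_empty_or_nonempty ((Reg I)ᶜ : Set D) with hemp | hne
  · rw [hemp, Set.ncard_empty, mul_zero]; exact Nat.zero_le _
  have hpmD : p ^ m ≤ Nat.card D := by
    obtain ⟨u, hu⟩ := hne
    have : ∃ t ∈ I, t ≠ 1 := by
      by_contra hcon
      push Not at hcon
      exact hu (fun t ht _ => hcon t ht)
    obtain ⟨t, ht, ht1⟩ := this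
    have h1 := card_Fx hp hD hI hm hom ht ht1
    have h2 : 0 < Nat.card (Fx t) := Nat.card_pos
    nlinarith
  have hcov : ((Reg I)ᶜ : Set D) ⊆ ((insert (1 : D) (S.biUnion (fun X => ((X : Set D) \ {1}).toFinset)) : Finset D) : Set D) := by
    intro u hu
    rw [Finset.mem_coe, Finset.mem_insert, Finset.mem_biUnion]
    by_cases hu1 : u = 1
    · exact Or.inl hu1
    right
    have : ∃ t ∈ I, t ≠ 1 ∧ t u = u := by
      by_contra hcon
      push Not at hcon
      apply hu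
      intro t ht htu
      by_contra ht1
      exact hcon t ht ht1 htu
    obtain ⟨t, ht, ht1, htu⟩ := this
    refine ⟨Fx t, (hmem _).2 ⟨t, ht, ht1, ?_, rfl⟩, ?_⟩
    · intro h
      apply hu1
      have : u ∈ Fx t := htu
      rw [h] at this
      exact Subgroup.mem_bot.1 this
    · rw [Set.mem_toFinset]
      exact ⟨htu, hu1⟩
  have h1 : ((Reg I)ᶜ : Set D).ncard ≤ 1 + ∑ X ∈ S, (Nat.card X - 1) := by
    calc ((Reg I)ᶜ : Set D).ncard ≤ ((insert (1 : D) (S.biUnion (fun X => ((X : Set D) \ {1}).toFinset)) : Finset D) : Set D).ncard :=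
          Set.ncard_le_ncard hcov (Set.toFinite _)
      _ = (insert (1 : D) (S.biUnion (fun X => ((X : Set D) \ {1}).toFinset)) : Finset D).card := Set.ncard_coe_finset _
      _ ≤ (S.biUnion (fun X => ((X : Set D) \ {1}).toFinset)).card + 1 := Finset.card_insert_le _ _
      _ ≤ ∑ X ∈ S, (((X : Set D) \ {1}).toFinset).card + 1 := by
          apply Nat.add_le_add_right
          exact Finset.card_biUnion_le
      _ = ∑ X ∈ S, (Nat.card X - 1) + 1 := by
          congr 1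
          apply Finset.sum_congr rfl
          intro X _
          rw [← Set.ncard_eq_toFinset_card', Set.ncard_diff_singleton_of_mem (Subgroup.one_mem _), ← Nat.card_coe_set_eq]
          simp only [SetLike.coe_sort_coe]
      _ = 1 + ∑ X ∈ S, (Nat.card X - 1) := add_comm _ _
  have h2 : ∀ X ∈ S, p ^ m * (Nat.card X - 1) ≤ Nat.card D - p ^ m := by
    intro X hX
    obtain ⟨t, ht, ht1, _, rfl⟩ := (hmem X).1 hX
    have h3 := card_Fx hp hD hI hm hom ht ht1
    rw [Nat.mul_sub, mul_one]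
    omega
  have h3 : p ^ m * ∑ X ∈ S, (Nat.card X - 1) ≤ (p + 1) * (Nat.card D - p ^ m) := by
    rw [Finset.mul_sum]
    calc ∑ X ∈ S, p ^ m * (Nat.card X - 1) ≤ ∑ _X ∈ S, (Nat.card D - p ^ m) := Finset.sum_le_sum h2
      _ = S.card * (Nat.card D - p ^ m) := by rw [Finset.sum_const, smul_eq_mul]
      _ ≤ (p + 1) * (Nat.card D - p ^ m) := Nat.mul_le_mul_right _ hScard
  calc p ^ m * ((Reg I)ᶜ : Set D).ncard ≤ p ^ m * (1 + ∑ X ∈ S, (Nat.card X - 1)) := Nat.mul_le_mul_left _ h1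
    _ = p ^ m + p ^ m * ∑ X ∈ S, (Nat.card X - 1) := by ring
    _ ≤ p ^ m + (p + 1) * (Nat.card D - p ^ m) := Nat.add_le_add_left h3 _
    _ ≤ (p + 1) * p ^ m + (p + 1) * (Nat.card D - p ^ m) := by
        apply Nat.add_le_add_right
        nlinarith [Nat.zero_le (p ^ m)]
    _ = (p + 1) * Nat.card D := by rw [← Nat.mul_add, Nat.add_sub_cancel' hpmD]

/-- the order of `I`, crude bound -/
theorem card_I_crude [Finite D] {p : ℕ} (hp : p.Prime) (hD : IsPGroup p D) {I : Subgroup (MulAut D)} (hI : ¬ p ∣ Nat.card I)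
    (hr : Nat.card (Om p D) = p ^ 2) : Nat.card I ≤ (p ^ 2 - 1) * (p ^ 2 - p) := by
  classical
  haveI : Fintype I := Fintype.ofFinite _
  haveI : Fintype D := Fintype.ofFinite _
  obtain ⟨w, hw, hw1⟩ : ∃ w : D, w ^ p = 1 ∧ w ≠ 1 := by
    by_contra hcon
    push Not at hcon
    have h2 : Om p D = ⊥ := by
      rw [eq_bot_iff]
      intro x hx
      exact Subgroup.mem_bot.2 (hcon x ((mem_Om x).1 hx))
    rw [h2, Subgroup.card_bot] at hr
    have := hp.one_lt
    nlinarith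
  obtain ⟨y, hy, hyw⟩ := ex_out hp hr hw hw1
  set A : Finset D := ((Om p D : Set D) \ {1}).toFinset with hA
  set B : D → Finset D := fun x => ((Om p D : Set D) \ (Subgroup.zpowers x : Set D)).toFinset with hB
  set f : I → (Σ _ : D, D) := fun t => ⟨(t : MulAut D) w, (t : MulAut D) y⟩ with hf
  have hfin : ∀ t : I, f t ∈ A.sigma B := by
    intro t
    rw [Finset.mem_sigma, hA, hB]
    simp only [Set.mem_toFinset]
    refine ⟨⟨?_, ?_⟩, ⟨?_, ?_⟩⟩
    · rw [hf]
      apply (mem_Om _).2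
      simp only
      rw [← map_pow, hw, map_one]
    · rw [hf]
      intro h
      apply hw1
      exact (t : MulAut D).injective (by rw [map_one]; exact h)
    · rw [hf]
      apply (mem_Om _).2
      simp only
      rw [← map_pow, hy, map_one]
    · rw [hf]
      intro h
      apply hyw
      obtain ⟨n, hn⟩ := Subgroup.mem_zpowers_iff.1 h
      rw [← map_zpow] at hn
      rw [← (t : MulAut D).injective hn]
      exact Subgroup.zpow_mem _ (Subgroup.mem_zpowers w) n
  have hinj : Function.Injective f := by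
    intro t t' h
    rw [hf] at h
    simp only [Sigma.mk.injEq, heq_eq_eq] at h
    have hs : ((t : MulAut D))⁻¹ * (t' : MulAut D) = 1 := by
      apply triv_of_line hp hD hI hr hw hw1 hy hyw (I.mul_mem (I.inv_mem t.2) t'.2)
      · rw [MulAut.mul_apply, ← h.1, ← MulAut.mul_apply, inv_mul_cancel, MulAut.one_apply]
      · rw [MulAut.mul_apply, ← h.2, ← MulAut.mul_apply, inv_mul_cancel, MulAut.one_apply, mul_inv_cancel]
        exact Subgroup.one_mem _
    rw [inv_mul_eq_one] at hs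
    exact Subtype.ext hs
  have hAc : A.card = p ^ 2 - 1 := by
    rw [hA, ← Set.ncard_eq_toFinset_card', card_Om_diff hp hr]
  have hBc : ∀ x ∈ A, (B x).card = p ^ 2 - p := by
    intro x hx
    rw [hA, Set.mem_toFinset] at hx
    rw [hB]
    simp only
    rw [← Set.ncard_eq_toFinset_card', Set.ncard_diff (by
      intro z hz
      exact (Subgroup.zpowers_le.2 hx.1) hz) (Set.toFinite _)]
    rw [← Nat.card_coe_set_eq, ← Nat.card_coe_set_eq]
    simp only [SetLike.coe_sort_coe]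
    rw [hr, card_zp hp ((mem_Om x).1 hx.1) hx.2]
  rw [Nat.card_eq_fintype_card, ← Finset.card_univ]
  calc (Finset.univ : Finset I).card ≤ (A.sigma B).card :=
        Finset.card_le_card_of_injOn f (fun t _ => hfin t) (fun t _ t' _ h => hinj h)
    _ = ∑ x ∈ A, (B x).card := Finset.card_sigma _ _
    _ = ∑ _x ∈ A, (p ^ 2 - p) := Finset.sum_congr rfl hBc
    _ = (p ^ 2 - 1) * (p ^ 2 - p) := by rw [Finset.sum_const, smul_eq_mul, hAc]

theorem heights1 [Finite D] {p : ℕ} (hp : p.Prime) (hD : IsPGroup p D) {I : Subgroup (MulAut D)} (hI : ¬ p ∣ Nat.card I)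
    (hr : Nat.card (Om p D) = p ^ 2) {m : ℕ} (hm : 3 ≤ m) (hom : ∀ u : D, u ^ p = 1 → ∃ v : D, v ^ p ^ (m - 1) = u) :
    Nat.card I * Nat.card D < p ^ 4 * (Reg I).ncard := by
  have h1 := nonreg_count hp hD hI hr (by omega) hom
  have h2 := card_I_crude hp hD hI hr
  have h3 : Set.ncard (Reg I) + ((Reg I)ᶜ : Set D).ncard = Nat.card D := Set.ncard_add_ncard_compl (Reg I) (Set.toFinite _) (Set.toFinite _)
  have hp1 := hp.one_lt
  have hpm : p ^ 3 ≤ p ^ m := Nat.pow_le_pow_right hp.pos hm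
  have hDpos : 0 < Nat.card D := Nat.card_pos
  -- p ^ m |Reg| ≥ (p ^ m - p - 1) |D|
  have h4 : p ^ m * Nat.card D ≤ p ^ m * (Reg I).ncard + (p + 1) * Nat.card D := by
    rw [← h3] at h1 ⊢
    nlinarith
  have h5 : (p ^ 2 - 1) * (p ^ 2 - p) + p ^ 3 + p ^ 2 = p ^ 4 + p := by
    obtain ⟨q, rfl⟩ : ∃ q, p = q + 1 := ⟨p - 1, by omega⟩
    have e1 : (q + 1) ^ 2 - 1 = q ^ 2 + 2 * q := by
      have : (q + 1) ^ 2 = q ^ 2 + 2 * q + 1 := by ring
      omega
    have e2 : (q + 1) ^ 2 - (q + 1) = q ^ 2 + q := by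
      have : (q + 1) ^ 2 = (q ^ 2 + q) + (q + 1) := by ring
      omega
    rw [e1, e2]
    ring
  have h6 : p ^ m * (Nat.card I * Nat.card D) < p ^ m * (p ^ 4 * (Reg I).ncard) := by
    have h7 : Nat.card I + p ^ 3 + p ^ 2 ≤ p ^ 4 + p := by omega
    have h8 : p ^ m * (Nat.card I * Nat.card D) + p ^ m * ((p ^ 3 + p ^ 2) * Nat.card D) ≤ p ^ m * ((p ^ 4 + p) * Nat.card D) := by
      have : (Nat.card I + (p ^ 3 + p ^ 2)) * Nat.card D ≤ (p ^ 4 + p) * Nat.card D := Nat.mul_le_mul_right _ (by omega)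
      nlinarith [Nat.zero_le (p ^ m)]
    have h9 : p ^ 4 * (p ^ m * Nat.card D) ≤ p ^ 4 * (p ^ m * (Reg I).ncard + (p + 1) * Nat.card D) := Nat.mul_le_mul_left _ h4
    have h10 : p ^ 4 * (p + 1) + p ^ m * p < p ^ m * (p ^ 3 + p ^ 2) := by
      have e3 : p ^ 4 * (p + 1) = p ^ 3 * (p ^ 2 + p) := by ring
      have e4 : p ^ 3 * (p ^ 2 + p) ≤ p ^ m * (p ^ 2 + p) := Nat.mul_le_mul_right _ hpm
      have e5 : p ^ 2 + p + p < p ^ 3 + p ^ 2 := by nlinarith
      have e6 : 0 < p ^ m := Nat.pow_pos hp.pos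
      nlinarith
    nlinarith
  exact Nat.lt_of_mul_lt_mul_left h6

end Pool.Agent.LE.Rank2
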