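import Mathlib
import Pool.Agent.helper12.LE.StmL
import Pool.Agent.helper12.FI.QI0
import Pool.Agent.helper67.LE.R2Count

/-!
# Rank 2 (project LE, MP_baa4d7_al): the rows R2A, R2B
-/

set_option autoImplicit false

namespace Pool.Agent.LE.Rank2

open Pool.Agent.helper58.DC Pool.Agent.DI Pool.Agent.GR Pool.Agent.OB Pool.Agent.DR Pool.Agent.FI Pool.Agent.FI3 Pool.Agent.FI4 Pool.Agent.FIL

/-- the number of the elements with `x ^ n = 1` -/
theorem card_ker_pi {D : Type} [CommGroup D] {p r : ℕ} (hp : p.Prime) (a : Fin r → ℕ)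
    (e : D ≃* ((i : Fin r) → Multiplicative (ZMod (p ^ a i)))) (n : ℕ) :
    Nat.card (powMonoidHom n : D →* D).ker = ∏ i, (p ^ a i).gcd n := by
  haveI : ∀ i, NeZero (p ^ a i) := fun i => ⟨(Nat.pow_pos hp.pos).ne'⟩
  have h1 : (powMonoidHom n : D →* D).ker ≃ ((i : Fin r) → (powMonoidHom n : Multiplicative (ZMod (p ^ a i)) →* Multiplicative (ZMod (p ^ a i))).ker) :=
    { toFun := fun x i => ⟨e x.1 i, by
        rw [MonoidHom.mem_ker, powMonoidHom_apply, ← Pi.pow_apply, ← map_pow]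
        have h2 := x.2
        rw [MonoidHom.mem_ker, powMonoidHom_apply] at h2
        rw [h2, map_one, Pi.one_apply]⟩
      invFun := fun f => ⟨e.symm (fun i => (f i).1), by
        rw [MonoidHom.mem_ker, powMonoidHom_apply, ← map_pow]
        have h2 : (fun i => (f i).1 : (i : Fin r) → Multiplicative (ZMod (p ^ a i))) ^ n = 1 := by
          funext i
          rw [Pi.pow_apply, Pi.one_apply]
          have h3 := (f i).2
          rw [MonoidHom.mem_ker, powMonoidHom_apply] at h3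
          exact h3
        rw [h2, map_one]⟩
      left_inv := by intro x; apply Subtype.ext; simp
      right_inv := by intro f; funext i; apply Subtype.ext; simp }
  rw [Nat.card_congr h1, Nat.card_pi]
  apply Finset.prod_congr rfl
  intro i _
  rw [IsCyclic.card_powMonoidHom_ker]
  congr 1
  rw [Nat.card_congr Multiplicative.toAdd, Nat.card_zmod]

theorem card_pi {D : Type} [CommGroup D] {p r : ℕ} (hp : p.Prime) (a : Fin r → ℕ)
    (e : D ≃* ((i : Fin r) → Multiplicative (ZMod (p ^ a i)))) : Nat.card D = ∏ i, p ^ a i := by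
  haveI : ∀ i, NeZero (p ^ a i) := fun i => ⟨(Nat.pow_pos hp.pos).ne'⟩
  rw [Nat.card_congr e.toEquiv, Nat.card_pi]
  apply Finset.prod_congr rfl
  intro i _
  rw [Nat.card_congr Multiplicative.toAdd, Nat.card_zmod]

theorem om_pi {D : Type} [CommGroup D] {p r : ℕ} (hp : p.Prime) (a : Fin r → ℕ)
    (e : D ≃* ((i : Fin r) → Multiplicative (ZMod (p ^ a i)))) {c : ℕ} (hc : 1 ≤ c) (hca : ∀ i, c ≤ a i) (u : D) (hu : u ^ p = 1) :
    ∃ v : D, v ^ p ^ (c - 1) = u := by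
  haveI : ∀ i, NeZero (p ^ a i) := fun i => ⟨(Nat.pow_pos hp.pos).ne'⟩
  have h1 : ∀ i, ∃ y : Multiplicative (ZMod (p ^ a i)), y ^ p ^ (c - 1) = e u i := by
    intro i
    have h2 : (e u i) ^ p = 1 := by rw [← Pi.pow_apply, ← map_pow, hu, map_one, Pi.one_apply]
    set x : ZMod (p ^ a i) := Multiplicative.toAdd (e u i) with hx
    have h3 : (p : ZMod (p ^ a i)) * x = 0 := by
      have h4 := congrArg Multiplicative.toAdd h2
      rw [toAdd_pow, toAdd_one, nsmul_eq_mul] at h4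
      exact h4
    have h4 : p ^ a i ∣ p * x.val := by
      rw [← ZMod.natCast_eq_zero_iff]
      rw [Nat.cast_mul, ZMod.natCast_zmod_val]
      exact h3
    have h5 : p ^ (a i - 1) ∣ x.val := by
      have h6 : p ^ a i = p * p ^ (a i - 1) := by
        rw [← pow_succ']
        congr 1
        have := hca i
        omega
      exact Nat.dvd_of_mul_dvd_mul_left hp.pos ((dvd_of_eq h6.symm).trans h4)
    obtain ⟨k, hk⟩ := h5
    refine ⟨Multiplicative.ofAdd ((p ^ (a i - c) * k : ℕ) : ZMod (p ^ a i)), ?_⟩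
    apply Multiplicative.toAdd.injective
    rw [toAdd_pow, toAdd_ofAdd, nsmul_eq_mul, ← hx]
    have h7 : p ^ (c - 1) * (p ^ (a i - c) * k) = x.val := by
      rw [hk, ← mul_assoc, ← pow_add]
      congr 2
      have := hca i
      omega
    rw [← Nat.cast_mul, h7, ZMod.natCast_zmod_val]
  choose y hy using h1
  refine ⟨e.symm y, ?_⟩
  rw [← map_pow]
  have h2 : y ^ p ^ (c - 1) = e u := by
    funext i
    rw [Pi.pow_apply, hy]
  rw [h2, MulEquiv.symm_apply_apply]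

section transfer

variable {G : Type} [Group G] [Finite G]

theorem trans_rgt {D T : Subgroup G} (I : Subgroup (MulAut D)) (hI1 : ∀ t ∈ I, ∃ s ∈ T, ∀ u : D, ((t u : D) : G) = s * u * s⁻¹)
    (hI2 : ∀ s ∈ T, ∃ t ∈ I, ∀ u : D, ((t u : D) : G) = s * u * s⁻¹) :
    RGT D T = Subtype.val '' {u : D | ∀ t ∈ I, t u = u → t = 1} := by
  ext u
  constructor
  · rintro ⟨hu, hreg⟩
    refine ⟨⟨u, hu⟩, ?_, rfl⟩
    intro t ht htu
    obtain ⟨s, hs, hst⟩ := hI1 t ht
    have h1 : s * u * s⁻¹ = u := by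
      have := hst ⟨u, hu⟩
      rw [htu] at this
      exact this.symm
    have h2 : s ∈ cz D := hreg s hs (mul_inv_eq_iff_eq_mul.1 h1)
    ext v
    rw [MulAut.one_apply, hst v]
    have h3 := (Subgroup.mem_centralizer_iff.1 h2) v v.2
    rw [← h3, mul_inv_cancel_right]
  · rintro ⟨⟨u, hu⟩, hreg, rfl⟩
    refine ⟨hu, ?_⟩
    intro s hs hsu
    obtain ⟨t, ht, htt⟩ := hI2 s hs
    have h1 : t ⟨u, hu⟩ = ⟨u, hu⟩ := by
      apply Subtype.ext
      rw [htt]
      simp only at hsu ⊢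
      rw [hsu, mul_inv_cancel_right]
    have h2 := hreg t ht h1
    rw [Subgroup.mem_centralizer_iff]
    intro v hv
    have h3 := htt ⟨v, hv⟩
    rw [h2, MulAut.one_apply] at h3
    simp only at h3
    rw [eq_mul_inv_iff_mul_eq] at h3
    exact h3

theorem trans_cz {p : ℕ} {D T : Subgroup G} (h : GDT p D T)
    (I : Subgroup (MulAut D)) (hI2 : ∀ s ∈ T, ∃ t ∈ I, ∀ u : D, ((t u : D) : G) = s * u * s⁻¹) (s : G) (hs : s ∈ T)
    (hsc : s ∉ cz D) : ∃ t ∈ I, t ≠ 1 ∧ ∀ u : D, ((t u : D) : G) = s * u * s⁻¹ := by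
  obtain ⟨t, ht, htt⟩ := hI2 s hs
  refine ⟨t, ht, ?_, htt⟩
  rintro rfl
  apply hsc
  rw [Subgroup.mem_centralizer_iff]
  intro v hv
  have h3 := htt ⟨v, hv⟩
  rw [MulAut.one_apply] at h3
  simp only at h3
  rw [eq_mul_inv_iff_mul_eq] at h3
  exact h3

/-- commutators of large order -/
theorem hwe_of {p : ℕ} {D T : Subgroup G} (h : GDT p D T) {r : ℕ} (a : Fin r → ℕ) {c : ℕ} (hc : 1 ≤ c)
    (hca : ∀ i, c ≤ a i) (hinv : Invariants p D a) : HWE p c G D T := by
  obtain ⟨e⟩ := hinv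
  let _ : CommGroup D := { (inferInstance : Group D) with mul_comm := fun x y => Subtype.ext (h.com x x.2 y y.2) }
  obtain ⟨I, hIc, hI1, hI2⟩ := QI0 D T h.nor
  intro s hs hsc
  obtain ⟨t, ht, ht1, htt⟩ := trans_cz h I hI2 s hs hsc
  have h2 : ∃ x : D, x ^ p = 1 ∧ t x ≠ x := by
    by_contra hcon
    push Not at hcon
    exact ht1 (eq_one_of_fix h.pr h.pg (hIc ▸ h.cop) t (pow_card_I ht) hcon)
  obtain ⟨x, hx, htx⟩ := h2
  obtain ⟨v, hv⟩ := om_pi h.pr a e hc hca x hx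
  refine ⟨v, v.2, ?_⟩
  intro h3
  apply htx
  have h4 : ((v : G)⁻¹ * s * v * s⁻¹) = ((v⁻¹ * t v : D) : G) := by
    rw [Subgroup.coe_mul, Subgroup.coe_inv, htt v]
    group
  rw [h4, ← Subgroup.coe_pow] at h3
  have h5 : (v⁻¹ * t v) ^ p ^ (c - 1) = 1 := Subtype.ext h3
  rw [mul_pow, inv_pow, ← map_pow, hv] at h5
  exact (inv_mul_eq_one.1 h5).symm

/-- from a regular coset in the type `D` to `KRT` -/
theorem krt_of {p : ℕ} {D T : Subgroup G} (h : GDT p D T) (I : Subgroup (MulAut D))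
    (hI1 : ∀ t ∈ I, ∃ s ∈ T, ∀ u : D, ((t u : D) : G) = s * u * s⁻¹)
    (hI2 : ∀ s ∈ T, ∃ t ∈ I, ∀ u : D, ((t u : D) : G) = s * u * s⁻¹) {k g : ℕ} (K : Subgroup D)
    (hK : ∀ x : D, x ∈ K ↔ ∃ v : D, v ^ p ^ (k + 1) = x) (u : D)
    (hu : ∀ t ∈ I, t u * u⁻¹ ∈ K → t = 1) (hg : g = 0 ∨ u ^ p ^ g ∉ K) :
    KRT p D T k g (K.map D.subtype) (u : G) := by
  have hKt : ∀ t ∈ I, ∀ x ∈ K, t x ∈ K := by
    intro t _ x hx
    obtain ⟨v, rfl⟩ := (hK x).1 hx
    exact (hK _).2 ⟨t v, by rw [map_pow]⟩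
  constructor
  · rintro _ ⟨x, _, rfl⟩
    exact x.2
  · rintro _ ⟨x, hx, rfl⟩
    obtain ⟨v, rfl⟩ := (hK x).1 hx
    exact ⟨v, v.2, by simp⟩
  · rintro s hs _ ⟨x, hx, rfl⟩
    obtain ⟨t, ht, htt⟩ := hI2 s hs
    exact ⟨t x, hKt t ht x hx, htt x⟩
  · exact u.2
  · rintro _ ⟨x, hx, rfl⟩
    rw [trans_rgt I hI1 hI2]
    refine ⟨u * x, ?_, rfl⟩
    intro t ht htu
    apply hu t ht
    have hcm : ∀ y z : D, y * z = z * y := fun y z => Subtype.ext (h.com y y.2 z z.2)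
    have h1 : t u * u⁻¹ = x * (t x)⁻¹ := by
      rw [map_mul] at htu
      rw [eq_mul_inv_iff_mul_eq, mul_assoc, hcm u⁻¹ (t x), ← mul_assoc, htu, hcm u x, mul_inv_cancel_right]
    rw [h1]
    exact K.mul_mem hx (K.inv_mem (hKt t ht x hx))
  · rcases hg with hg | hg
    · exact Or.inl hg
    · right
      rintro ⟨x, hx, hxu⟩
      apply hg
      have : x = u ^ p ^ g := by
        apply Subtype.ext
        rw [Subgroup.coe_subtype] at hxu
        rw [hxu, Subgroup.coe_pow]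
      rw [← this]
      exact hx

end transfer

end Pool.Agent.LE.Rank2
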