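import Mathlib
import Pool.Agent.helper67.LE.R2Fin

/-!
# Rank 2 (project LE, MP_baa4d7_al): the rows R2A, R2B
-/

set_option autoImplicit false

namespace Pool.Agent.LE

open Pool.Agent.helper58.DC Pool.Agent.DI Pool.Agent.GR Pool.Agent.OB Pool.Agent.DR Pool.Agent.FI Pool.Agent.FI3 Pool.Agent.FI4 Pool.Agent.FIL
open Pool.Agent.LE.Rank2

theorem R2_card_map {G : Type} [Group G] (D : Subgroup G) (K : Subgroup D) : Nat.card (K.map D.subtype) = Nat.card K :=
  (Nat.card_congr (K.equivMapOfInjective D.subtype D.subtype_injective).toEquiv).symm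

theorem R2_rgt {G : Type} [Group G] [Finite G] {D T : Subgroup G} (I : Subgroup (MulAut D))
    (hI1 : ∀ t ∈ I, ∃ s ∈ T, ∀ u : D, ((t u : D) : G) = s * u * s⁻¹)
    (hI2 : ∀ s ∈ T, ∃ t ∈ I, ∀ u : D, ((t u : D) : G) = s * u * s⁻¹) :
    (RGT D T).ncard = {u : D | ∀ t ∈ I, t u = u → t = 1}.ncard := by
  rw [trans_rgt I hI1 hI2, Set.ncard_image_of_injective _ Subtype.val_injective]

theorem R2A : R2A_stmt := by
  intro p G _ _ D T h a b hb hab hinv
  have hinv' := hinv
  obtain ⟨e⟩ := hinv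
  have hp := h.pr
  let _ : CommGroup D := { (inferInstance : Group D) with mul_comm := fun x y => Subtype.ext (h.com x x.2 y y.2) }
  obtain ⟨I, hIc, hI1, hI2⟩ := QI0 D T h.nor
  have hI : ¬ p ∣ Nat.card I := hIc ▸ h.cop
  have hD : IsPGroup p D := h.pg
  have hcD : Nat.card D = p ^ (a + b) := by
    rw [card_pi hp _ e, Fin.prod_univ_two]
    simp [pow_add]
  have hr : Nat.card (Om p D) = p ^ 2 := by
    unfold Om
    rw [card_ker_pi hp _ e, Fin.prod_univ_two]
    simp only [Matrix.cons_val_zero, Matrix.cons_val_one]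
    rw [Nat.gcd_eq_right (dvd_pow_self p (by omega)), Nat.gcd_eq_right (dvd_pow_self p (by omega)), pow_two]
  have hcP : Nat.card (Pw (p ^ (a - 1)) D) = p := by
    have h1 := card_ker_range (D := D) (p ^ (a - 1))
    rw [card_ker_pi hp _ e, Fin.prod_univ_two] at h1
    simp only [Matrix.cons_val_zero, Matrix.cons_val_one] at h1
    rw [Nat.gcd_eq_right (pow_dvd_pow p (by omega)), Nat.gcd_eq_left (pow_dvd_pow p (by omega)), hcD, ← pow_add] at h1
    have h2 : p ^ (a + b) = p ^ (a - 1 + b) * p := by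
      rw [← pow_succ]
      congr 1
      omega
    rw [h2] at h1
    exact Nat.eq_of_mul_eq_mul_left (Nat.pow_pos hp.pos) h1
  obtain ⟨⟨w, hw, hw1, hL⟩, u₀, hu0, hreg⟩ := ex_reg1 hp hD hI hr (show 1 ≤ a - 1 by omega) hcP
  have h3 : p ^ 3 ≤ Nat.card D := by
    rw [hcD]
    exact Nat.pow_le_pow_right hp.pos (by omega)
  have hZ : HZE p G D T := by
    unfold HZE
    rw [← hIc, R2_rgt I hI1 hI2]
    exact heights0 hp hD hI hr h3 hw hw1 hL
  refine ⟨⟨⟨0, (Pw p D).map D.subtype, (u₀ : G), ?_, ?_⟩, ?_⟩, hZ, ?_⟩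
  · apply krt_of h I hI1 hI2 (Pw p D) (fun x => by rw [zero_add, pow_one]; exact mem_Pw x) u₀ hreg (Or.inl rfl)
  · rw [R2_card_map]
    have h1 := card_ker_range (D := D) p
    have h2 : Nat.card (powMonoidHom p : D →* D).ker = p ^ 2 := hr
    rw [h2] at h1
    rw [← h1]
  · have := hZ
    unfold HZE at this
    simpa using this
  · intro hb2
    apply hwe_of h ![a, b] (by norm_num) _ hinv'
    intro i
    fin_cases i
    · simp; omega
    · simpa using hb2

theorem R2B : R2B_stmt := by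
  intro p G _ _ D T h e₀ he hinv
  have hinv' := hinv
  obtain ⟨e⟩ := hinv
  have hp := h.pr
  let _ : CommGroup D := { (inferInstance : Group D) with mul_comm := fun x y => Subtype.ext (h.com x x.2 y y.2) }
  obtain ⟨I, hIc, hI1, hI2⟩ := QI0 D T h.nor
  have hI : ¬ p ∣ Nat.card I := hIc ▸ h.cop
  have hD : IsPGroup p D := h.pg
  have hcD : Nat.card D = p ^ (e₀ + e₀) := by
    rw [card_pi hp _ e, Fin.prod_univ_two]
    simp [pow_add]
  have hr : Nat.card (Om p D) = p ^ 2 := by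
    unfold Om
    rw [card_ker_pi hp _ e, Fin.prod_univ_two]
    simp only [Matrix.cons_val_zero, Matrix.cons_val_one]
    rw [Nat.gcd_eq_right (dvd_pow_self p (by omega)), pow_two]
  have hall : ∀ i, e₀ ≤ (![e₀, e₀] : Fin 2 → ℕ) i := by
    intro i
    fin_cases i <;> simp
  have hom : ∀ c : ℕ, 1 ≤ c → c ≤ e₀ → ∀ u : D, u ^ p = 1 → ∃ v : D, v ^ p ^ (c - 1) = u := by
    intro c hc hc2 u hu
    exact om_pi hp _ e hc (fun i => hc2.trans (hall i)) u hu
  have hexp : ∀ x : D, x ^ p ^ (e₀ - 1 + 1) = 1 := by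
    intro x
    have h1 : Nat.card (powMonoidHom (p ^ (e₀ - 1 + 1)) : D →* D).ker = Nat.card D := by
      rw [card_ker_pi hp _ e, Fin.prod_univ_two]
      simp only [Matrix.cons_val_zero, Matrix.cons_val_one]
      rw [Nat.gcd_eq_left (pow_dvd_pow p (by omega)), hcD, pow_add]
    have h2 : (powMonoidHom (p ^ (e₀ - 1 + 1)) : D →* D).ker = ⊤ := Subgroup.eq_top_of_card_eq _ h1
    have h3 : x ∈ (powMonoidHom (p ^ (e₀ - 1 + 1)) : D →* D).ker := by rw [h2]; exact Subgroup.mem_top x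
    rw [MonoidHom.mem_ker, powMonoidHom_apply] at h3
    exact h3
  obtain ⟨u₀, hu0, hreg⟩ := ex_reg2 hp hD hI hr (show 1 ≤ e₀ - 1 by omega) hexp
    (fun u hu => by
      obtain ⟨v, hv⟩ := hom e₀ (by omega) le_rfl u hu
      exact ⟨v, hv⟩)
  refine ⟨⟨⟨1, (Pw (p ^ 2) D).map D.subtype, (u₀ : G), ?_, ?_⟩, ?_⟩, ?_⟩
  · apply krt_of h I hI1 hI2 (Pw (p ^ 2) D) (fun x => mem_Pw x) u₀ hreg (Or.inr (by rw [pow_one]; exact hu0))
  · rw [R2_card_map]
    have h1 := card_ker_range (D := D) (p ^ 2)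
    rw [card_ker_pi hp _ e, Fin.prod_univ_two] at h1
    simp only [Matrix.cons_val_zero, Matrix.cons_val_one] at h1
    rw [Nat.gcd_eq_right (pow_dvd_pow p (by omega)), ← pow_add] at h1
    rw [← h1]
  · rw [← hIc, R2_rgt I hI1 hI2]
    exact heights1 hp hD hI hr he (hom e₀ (by omega) le_rfl)
  · exact hwe_of h ![e₀, e₀] (by norm_num) (fun i => he.trans (hall i)) hinv'

end Pool.Agent.LE
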