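import Mathlib
import Pool.Agent.helper67.LE.R2AB

/-!
# Rank 2, homocyclic (project LE, MP_baa4d7_al): abelian inertial quotient, heights
-/

set_option autoImplicit false

namespace Pool.Agent.LE

open Pool.Agent.helper58.DC Pool.Agent.DI Pool.Agent.GR Pool.Agent.OB Pool.Agent.DR Pool.Agent.FI Pool.Agent.FI3 Pool.Agent.FI4 Pool.Agent.FIL
open Pool.Agent.LE.Rank2

/-- Rank 2, `a = b = e`: heights zero for small `|T : cz D|`. -/
def R2Ca_stmt : Prop :=
  ∀ (p : ℕ) (G : Type) [Group G] [Finite G] (D T : Subgroup G), GDT p D T → ∀ e : ℕ, 1 ≤ e → Invariants p D ![e, e] →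
    (cz D).relIndex T * p ^ e + p ^ 2 * (p + 1) < p ^ (e + 2) → HZE p G D T

/-- Rank 2, `a = b = e ≥ 2`, `T / cz D` abelian. -/
def R2Da_stmt : Prop :=
  ∀ (p : ℕ) (G : Type) [Group G] [Finite G] (D T : Subgroup G), GDT p D T → ∀ e : ℕ, 2 ≤ e → Invariants p D ![e, e] →
    (∀ s ∈ T, ∀ t ∈ T, s * t * s⁻¹ * t⁻¹ ∈ cz D) → HLE p 2 0 G D T ∧ HZE p G D T ∧ HWE p 2 G D T

namespace Rank2

variable {D : Type} [CommGroup D]

/-- an abelian group of coprime automorphisms of a homocyclic group of rank 2 has a regular orbit on the elements of order `p` -/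
theorem abel_reg [Finite D] {p : ℕ} (hp : p.Prime) (hD : IsPGroup p D) {I : Subgroup (MulAut D)} (hI : ¬ p ∣ Nat.card I)
    (hr : Nat.card (Om p D) = p ^ 2) (hab : ∀ s ∈ I, ∀ t ∈ I, s * t = t * s) :
    ∃ w : D, w ^ p = 1 ∧ w ≠ 1 ∧ ∀ t ∈ I, t w = w → t = 1 := by
  by_contra hcon
  push Not at hcon
  have hline : ∀ w : D, w ^ p = 1 → w ≠ 1 → ∀ s ∈ I, s w ∈ Subgroup.zpowers w := by
    intro w hw hw1 s hs
    obtain ⟨t, ht, htw, ht1⟩ := hcon w hw hw1
    apply socle hp hD hI hr hw hw1 ht ht1 htw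
    · rw [← map_pow, hw, map_one]
    · rw [← MulAut.mul_apply, hab t ht s hs, MulAut.mul_apply, htw]
  obtain ⟨w, hw, hw1⟩ : ∃ w : D, w ^ p = 1 ∧ w ≠ 1 := by
    by_contra hcon2
    push Not at hcon2
    have h2 : Om p D = ⊥ := by
      rw [eq_bot_iff]
      intro x hx
      exact Subgroup.mem_bot.2 (hcon2 x ((mem_Om x).1 hx))
    rw [h2, Subgroup.card_bot] at hr
    have := hp.one_lt
    nlinarith
  obtain ⟨y, hy, hyw⟩ := ex_out hp hr hw hw1
  obtain ⟨t, ht, htw, ht1⟩ := hcon w hw hw1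
  have hy1 : y ≠ 1 := by rintro rfl; exact hyw (Subgroup.one_mem _)
  have hwy : (w * y) ^ p = 1 := by rw [mul_pow, hw, hy, one_mul]
  have hwy1 : w * y ≠ 1 := by
    intro h
    apply hyw
    have : y = w⁻¹ := (inv_eq_of_mul_eq_one_right h).symm
    rw [this]
    exact Subgroup.inv_mem _ (Subgroup.mem_zpowers w)
  obtain ⟨b, hb, htb⟩ := ex_exp hp hy hy1 (hline y hy hy1 t ht)
  obtain ⟨c, hc, htc⟩ := ex_exp hp hwy hwy1 (hline _ hwy hwy1 t ht)
  -- (w y)^c = w * y^b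
  have h1 : w ^ c * y ^ c = w * y ^ b := by rw [← mul_pow, htc, map_mul, htw, htb]
  have hdisj : ∀ x : D, x ∈ Subgroup.zpowers w → x ∈ Subgroup.zpowers y → x = 1 := by
    intro x hxw hxy
    by_contra hx1
    apply hyw
    have h2 := mem_zp hp hD hy hxy hx1
    exact (Subgroup.zpowers_le.2 hxw) h2
  have h2 : w ^ c * w⁻¹ = y ^ b * (y ^ c)⁻¹ := by
    rw [mul_inv_eq_iff_eq_mul, mul_assoc, mul_comm (y ^ c)⁻¹ w, ← mul_assoc, eq_mul_inv_iff_mul_eq, h1, mul_comm]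
  have h3 : w ^ c * w⁻¹ = 1 := by
    apply hdisj
    · exact Subgroup.mul_mem _ (Subgroup.npow_mem_zpowers w c) (Subgroup.inv_mem _ (Subgroup.mem_zpowers w))
    · rw [h2]
      exact Subgroup.mul_mem _ (Subgroup.npow_mem_zpowers y b) (Subgroup.inv_mem _ (Subgroup.npow_mem_zpowers y c))
  have ho : orderOf w = p := orderOf_eq_prime hw hw1 (hp := ⟨hp⟩)
  have hc1 : c = 1 := by
    have h4 : w ^ c = w ^ 1 := by rw [pow_one]; exact mul_inv_eq_one.1 h3
    have h5 := (pow_inj_mod (x := w) (n := c) (m := 1)).1 h4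
    rw [ho, Nat.mod_eq_of_lt hc, Nat.mod_eq_of_lt hp.one_lt] at h5
    exact h5
  rw [h3] at h2
  have h5 : y ^ b = y ^ c := mul_inv_eq_one.1 h2.symm
  rw [hc1, pow_one] at h5
  rw [h5] at htb
  apply ht1
  apply triv_of_line hp hD hI hr hw hw1 hy hyw ht htw
  rw [← htb, mul_inv_cancel]
  exact Subgroup.one_mem _

theorem heights_abel [Finite D] {p : ℕ} (hp : p.Prime) (hD : IsPGroup p D) {I : Subgroup (MulAut D)} (hI : ¬ p ∣ Nat.card I)
    (hr : Nat.card (Om p D) = p ^ 2) (h3 : p ^ 3 ≤ Nat.card D) (hab : ∀ s ∈ I, ∀ t ∈ I, s * t = t * s) :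
    Nat.card I * Nat.card D < p ^ 2 * (Reg I).ncard := by
  classical
  by_cases hL : ∃ w : D, w ^ p = 1 ∧ w ≠ 1 ∧ ∀ t ∈ I, t w ∈ Subgroup.zpowers w
  · obtain ⟨w, hw, hw1, hL⟩ := hL
    exact heights0 hp hD hI hr h3 hw hw1 hL
  push Not at hL
  -- no non-trivial element has fixed points
  have hfree : ∀ t ∈ I, t ≠ 1 → ∀ u : D, t u = u → u = 1 := by
    intro t ht ht1 u htu
    by_contra hu1
    obtain ⟨n, hn1, hnp⟩ := ex_pow hp hD hu1
    have htn : t (u ^ n) = u ^ n := by rw [map_pow, htu]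
    obtain ⟨s, hs, hsn⟩ := hL (u ^ n) hnp hn1
    apply hsn
    apply socle hp hD hI hr hnp hn1 ht ht1 htn
    · rw [← map_pow, hnp, map_one]
    · rw [← MulAut.mul_apply, hab t ht s hs, MulAut.mul_apply, htn]
  have hreg : ({1} : Set D)ᶜ ⊆ Reg I := by
    intro u hu t ht htu
    by_contra ht1
    exact hu (hfree t ht ht1 u htu)
  have hrc : Nat.card D ≤ (Reg I).ncard + 1 := by
    have h1 : (({1} : Set D)ᶜ).ncard + 1 = Nat.card D := by
      have := Set.ncard_add_ncard_compl ({1} : Set D) (Set.toFinite _) (Set.toFinite _)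
      rw [Set.ncard_singleton] at this
      omega
    have h2 := Set.ncard_le_ncard hreg (Set.toFinite _)
    omega
  have hIc : Nat.card I ≤ p ^ 2 - 1 := by
    obtain ⟨w, hw, hw1, hwr⟩ := abel_reg hp hD hI hr hab
    haveI : Fintype I := Fintype.ofFinite _
    rw [← card_Om_diff hp hr, ← Nat.card_coe_set_eq]
    apply Nat.card_le_card_of_injective (fun t : I => (⟨(t : MulAut D) w, ⟨(mem_Om _).2 (by rw [← map_pow, hw, map_one]), fun h => hw1 ((t : MulAut D).injective (by rw [map_one]; exact h))⟩⟩ : ((Om p D : Set D) \ {1} : Set D)))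
    intro t t' h
    have h1 : (t : MulAut D) w = (t' : MulAut D) w := congrArg Subtype.val h
    have hs : ((t : MulAut D))⁻¹ * (t' : MulAut D) = 1 := by
      apply hwr _ (I.mul_mem (I.inv_mem t.2) t'.2)
      rw [MulAut.mul_apply, ← h1, ← MulAut.mul_apply, inv_mul_cancel, MulAut.one_apply]
    rw [inv_mul_eq_one] at hs
    exact Subtype.ext hs
  have hp1 := hp.one_lt
  have h4 : p ^ 2 < Nat.card D := lt_of_lt_of_le (Nat.pow_lt_pow_right (by omega) (by norm_num)) h3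
  obtain ⟨q, hq⟩ : ∃ q, p ^ 2 = q + 1 := ⟨p ^ 2 - 1, by have := Nat.pow_pos (n := 2) hp.pos; omega⟩
  rw [hq] at hIc h4 ⊢
  rw [Nat.add_sub_cancel] at hIc
  have h5 : Nat.card I * Nat.card D ≤ q * Nat.card D := Nat.mul_le_mul_right _ hIc
  nlinarith

end Rank2

theorem R2Ca : R2Ca_stmt := by
  intro p G _ _ D T h e₀ he hinv hn
  obtain ⟨e⟩ := hinv
  have hp := h.pr
  let _ : CommGroup D := { (inferInstance : Group D) with mul_comm := fun x y => Subtype.ext (h.com x x.2 y y.2) }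
  obtain ⟨I, hIc, hI1, hI2⟩ := QI0 D T h.nor
  have hI : ¬ p ∣ Nat.card I := hIc ▸ h.cop
  have hD : IsPGroup p D := h.pg
  have hr : Nat.card (Om p D) = p ^ 2 := by
    unfold Om
    rw [card_ker_pi hp _ e, Fin.prod_univ_two]
    simp only [Matrix.cons_val_zero, Matrix.cons_val_one]
    rw [Nat.gcd_eq_right (dvd_pow_self p (by omega)), pow_two]
  have hall : ∀ i, e₀ ≤ (![e₀, e₀] : Fin 2 → ℕ) i := by
    intro i
    fin_cases i <;> simp
  have h1 := nonreg_count hp hD hI hr he (fun u hu => om_pi hp _ e he hall u hu)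
  have h3 : Set.ncard (Reg I) + ((Reg I)ᶜ : Set D).ncard = Nat.card D := Set.ncard_add_ncard_compl (Reg I) (Set.toFinite _) (Set.toFinite _)
  unfold HZE
  rw [← hIc, R2_rgt I hI1 hI2]
  change Nat.card I * Nat.card D < p ^ 2 * (Reg I).ncard
  rw [← hIc] at hn
  have hDpos : 0 < Nat.card D := Nat.card_pos
  have h4 : p ^ e₀ * Nat.card D ≤ p ^ e₀ * (Reg I).ncard + (p + 1) * Nat.card D := by
    rw [← h3] at h1 ⊢
    nlinarith
  have h5 : p ^ e₀ * (Nat.card I * Nat.card D) < p ^ e₀ * (p ^ 2 * (Reg I).ncard) := by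
    have h6 : (Nat.card I * p ^ e₀ + p ^ 2 * (p + 1)) * Nat.card D < p ^ (e₀ + 2) * Nat.card D :=
      Nat.mul_lt_mul_of_pos_right hn hDpos
    have h7 : p ^ (e₀ + 2) = p ^ e₀ * p ^ 2 := pow_add p e₀ 2
    rw [h7] at h6
    have h8 : p ^ 2 * (p ^ e₀ * Nat.card D) ≤ p ^ 2 * (p ^ e₀ * (Reg I).ncard + (p + 1) * Nat.card D) := Nat.mul_le_mul_left _ h4
    nlinarith
  exact Nat.lt_of_mul_lt_mul_left h5

theorem R2Da : R2Da_stmt := by
  intro p G _ _ D T h e₀ he hinv habT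
  have hinv' := hinv
  obtain ⟨e⟩ := hinv
  have hp := h.pr
  let _ : CommGroup D := { (inferInstance : Group D) with mul_comm := fun x y => Subtype.ext (h.com x x.2 y y.2) }
  obtain ⟨I, hIc, hI1, hI2⟩ := QI0 D T h.nor
  have hI : ¬ p ∣ Nat.card I := hIc ▸ h.cop
  have hD : IsPGroup p D := h.pg
  have hcD : Nat.card D = p ^ (e₀ + e₀) := by
    rw [card_pi hp _ e, Fin.prod_univ_two]
    simp [pow_add]
  have hr : Nat.card (Om p D) = p ^ 2 := by
    unfold Om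
    rw [card_ker_pi hp _ e, Fin.prod_univ_two]
    simp only [Matrix.cons_val_zero, Matrix.cons_val_one]
    rw [Nat.gcd_eq_right (dvd_pow_self p (by omega)), pow_two]
  have hall : ∀ i, e₀ ≤ (![e₀, e₀] : Fin 2 → ℕ) i := by
    intro i
    fin_cases i <;> simp
  have hab : ∀ s ∈ I, ∀ t ∈ I, s * t = t * s := by
    intro s hs t ht
    obtain ⟨s', hs', hss⟩ := hI1 s hs
    obtain ⟨t', ht', htt⟩ := hI1 t ht
    have h1 := habT s' hs' t' ht'
    ext u
    rw [MulAut.mul_apply, MulAut.mul_apply, hss, htt, htt, hss]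
    have h2 := (Subgroup.mem_centralizer_iff.1 h1) ((t' * s') * u * (t' * s')⁻¹) (by
      have := (t (s u)).2
      rw [htt, hss] at this
      have h3 : (t' * s') * (u : G) * (t' * s')⁻¹ = t' * (s' * u * s'⁻¹) * t'⁻¹ := by group
      rw [h3]
      exact this)
    have h3 : s' * (t' * (u : G) * t'⁻¹) * s'⁻¹ = (s' * t' * s'⁻¹ * t'⁻¹) * ((t' * s') * u * (t' * s')⁻¹) * (s' * t' * s'⁻¹ * t'⁻¹)⁻¹ := by group
    rw [h3, ← h2, mul_inv_cancel_right]
    group
  have hexp : ∀ x : D, x ^ p ^ e₀ = 1 := by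
    intro x
    have h1 : Nat.card (powMonoidHom (p ^ e₀) : D →* D).ker = Nat.card D := by
      rw [card_ker_pi hp _ e, Fin.prod_univ_two]
      simp only [Matrix.cons_val_zero, Matrix.cons_val_one]
      rw [Nat.gcd_eq_left (dvd_refl _), hcD, pow_add]
    have h2 : (powMonoidHom (p ^ e₀) : D →* D).ker = ⊤ := Subgroup.eq_top_of_card_eq _ h1
    have h3 : x ∈ (powMonoidHom (p ^ e₀) : D →* D).ker := by rw [h2]; exact Subgroup.mem_top x
    rw [MonoidHom.mem_ker, powMonoidHom_apply] at h3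
    exact h3
  obtain ⟨w, hw, hw1, hwr⟩ := abel_reg hp hD hI hr hab
  obtain ⟨u₀, hu0⟩ := om_pi hp _ e (show 1 ≤ e₀ by omega) hall w hw
  have hreg : ∀ t ∈ I, t u₀ * u₀⁻¹ ∈ Pw p D → t = 1 := by
    rintro t ht ⟨v, hv⟩
    apply hwr t ht
    rw [powMonoidHom_apply] at hv
    have h1 : (t u₀ * u₀⁻¹) ^ p ^ (e₀ - 1) = 1 := by
      rw [← hv, ← pow_mul, ← pow_succ']
      have h2 : e₀ - 1 + 1 = e₀ := by omega
      rw [h2, hexp]
    rw [mul_pow, inv_pow, ← map_pow, hu0, mul_inv_eq_one] at h1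
    exact h1
  have h3 : p ^ 3 ≤ Nat.card D := by
    rw [hcD]
    exact Nat.pow_le_pow_right hp.pos (by omega)
  have hZ : HZE p G D T := by
    unfold HZE
    rw [← hIc, R2_rgt I hI1 hI2]
    exact heights_abel hp hD hI hr h3 hab
  refine ⟨⟨⟨0, (Pw p D).map D.subtype, (u₀ : G), ?_, ?_⟩, ?_⟩, hZ, ?_⟩
  · apply krt_of h I hI1 hI2 (Pw p D) (fun x => by rw [zero_add, pow_one]; exact mem_Pw x) u₀ hreg (Or.inl rfl)
  · rw [R2_card_map]
    have h1 := card_ker_range (D := D) p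
    have h2 : Nat.card (powMonoidHom p : D →* D).ker = p ^ 2 := hr
    rw [h2] at h1
    rw [← h1]
  · have := hZ
    unfold HZE at this
    simpa using this
  · exact hwe_of h ![e₀, e₀] (by norm_num) (fun i => he.trans (hall i)) hinv'

theorem R2C : R2C_stmt := by
  intro p G _ _ D T h e hinv hcond
  have hp1 := h.pr.one_lt
  have key : ∀ n : ℕ, ((3 ≤ e ∧ n + 2 ≤ p ^ 2) ∨ (4 ≤ e ∧ n < p ^ 2)) → n * p ^ e + p ^ 2 * (p + 1) < p ^ (e + 2) := by
    intro n hn
    have h7 : p ^ (e + 2) = p ^ 2 * p ^ e := by rw [pow_add, mul_comm]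
    rw [h7]
    rcases hn with ⟨he, hn⟩ | ⟨he, hn⟩
    · have h1 : p ^ 3 ≤ p ^ e := Nat.pow_le_pow_right h.pr.pos he
      have h2 : (n + 2) * p ^ e ≤ p ^ 2 * p ^ e := Nat.mul_le_mul_right _ hn
      have h3 : p ^ 2 * (p + 1) < 2 * p ^ 3 := by nlinarith [Nat.pow_pos (n := 2) h.pr.pos]
      nlinarith
    · have h1 : p ^ 4 ≤ p ^ e := Nat.pow_le_pow_right h.pr.pos he
      have h2 : (n + 1) * p ^ e ≤ p ^ 2 * p ^ e := Nat.mul_le_mul_right _ hn
      have h3 : p ^ 2 * (p + 1) < p ^ 4 := by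
        have h4 : p + 1 < p ^ 2 := by nlinarith
        calc p ^ 2 * (p + 1) < p ^ 2 * p ^ 2 := Nat.mul_lt_mul_of_pos_left h4 (Nat.pow_pos h.pr.pos)
          _ = p ^ 4 := by ring
      nlinarith
  rcases hcond with hc | hc | ⟨he, hab⟩
  · exact R2Ca p G D T h e (by omega) hinv (key _ (Or.inl hc))
  · exact R2Ca p G D T h e (by omega) hinv (key _ (Or.inr hc))
  · exact (R2Da p G D T h e he hinv hab).2.1

theorem R2D : R2D_stmt := by
  intro p G _ _ D T h e he hinv hab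
  exact (R2Da p G D T h e he hinv hab).1

end Pool.Agent.LE
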